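import Pool.Agent.K9h27.PF.Sq

/-!
The area of the neighbourhoods of a curve in discs, from the exact orders of the smallest diameter
of its pieces, of its modulus of continuity, of its occupation times and of its Minkowski content.
-/

set_option autoImplicit false

namespace Pool.Agent.K9h27.PF

open MeasureTheory Set Filter Topology

/-- there are pieces of duration `h` and of small diameter in all arcs -/
def SlowP (f : C(unitInterval, ℂ)) (T C1 : ℝ) : Prop :=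
  ∀ s t : unitInterval, s < t → ∀ᶠ h : ℝ in 𝓝[>] 0, ∃ u v : unitInterval,
    s ≤ u ∧ u ≤ v ∧ v ≤ t ∧ T * ((v : ℝ) - u) = h ∧
      Metric.diam (f '' Icc u v) ≤ C1 * (h ^ (4/7 : ℝ) / Real.log (1 / h) ^ (1/14 : ℝ))

/-- duration and Minkowski content -/
def ContP (f : C(unitInterval, ℂ)) (T c2 C2 : ℝ) : Prop :=
  ∀ᶠ ρ : ℝ in 𝓝[>] 0, ∀ s t : unitInterval, s ≤ t →
    C2 * ρ ^ (7/4 : ℝ) * Real.log (1 / ρ) ≤ T * ((t : ℝ) - s) →
      c2 * (T * ((t : ℝ) - s)) * ρ ^ (1/4 : ℝ) ≤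
        (volume (Metric.thickening ρ (f '' Icc s t))).toReal ∧
      (volume (Metric.thickening ρ (f '' Icc s t))).toReal ≤
        C2 * (T * ((t : ℝ) - s)) * ρ ^ (1/4 : ℝ)

/-- modulus of continuity -/
def ModP (f : C(unitInterval, ℂ)) (T C3 : ℝ) : Prop :=
  ∃ h0 : ℝ, 0 < h0 ∧ ∀ h : ℝ, 0 < h → h < h0 → ∀ s t : unitInterval, |(s : ℝ) - t| * T ≤ h →
    dist (f s) (f t) ≤ C3 * (h ^ (4/7 : ℝ) * Real.log (1 / h) ^ (3/7 : ℝ))

/-- occupation times of discs -/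
def OccP (f : C(unitInterval, ℂ)) (T C4 : ℝ) : Prop :=
  ∃ r0 : ℝ, 0 < r0 ∧ ∀ r : ℝ, 0 < r → r < r0 → ∀ z : ℂ,
    T * (volume {s : unitInterval | dist (f s) z ≤ r}).toReal ≤
      C4 * (r ^ (7/4 : ℝ) * Real.log (1 / r) ^ (1/8 : ℝ))

lemma ev_small (A B : ℝ) (hB : 0 < B) :
    ∀ᶠ r : ℝ in 𝓝[>] 0, 0 < r ∧ r < B ∧ A ≤ Real.log (1 / r) := by
  have h1 : Tendsto (fun r : ℝ => Real.log (1 / r)) (𝓝[>] 0) atTop := by
    simp only [one_div]
    exact Real.tendsto_log_atTop.comp (tendsto_inv_nhdsGT_zero (𝕜 := ℝ))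
  filter_upwards [h1.eventually_ge_atTop A, self_mem_nhdsWithin,
    nhdsWithin_le_nhds (gt_mem_nhds hB)] with r h2 h3 h4
  exact ⟨h3, h4, h2⟩

lemma sigma_log {σ σ1 : ℝ} (h0 : 0 < σ) (h1 : σ ≤ σ1) (hL : 0 ≤ Real.log (1 / σ1)) :
    σ ^ (7/4 : ℝ) * Real.log (1 / σ) ≤ σ1 ^ (7/4 : ℝ) * (Real.log (1 / σ1) + 1) := by
  have h01 : 0 < σ1 := lt_of_lt_of_le h0 h1
  have e1 : Real.log (1 / σ) = Real.log (1 / σ1) + Real.log (σ1 / σ) := by
    rw [← Real.log_mul (by positivity) (by positivity)]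
    congr 1
    field_simp
  have h2 : Real.log (σ1 / σ) ≤ σ1 / σ := (Real.log_le_sub_one_of_pos (by positivity)).trans
    (by linarith)
  have h3 : σ ^ (7/4 : ℝ) ≤ σ1 ^ (7/4 : ℝ) := Real.rpow_le_rpow h0.le h1 (by norm_num)
  have h4 : σ ^ (7/4 : ℝ) * (σ1 / σ) ≤ σ1 ^ (7/4 : ℝ) := by
    have e2 : σ ^ (7/4 : ℝ) = σ ^ (3/4 : ℝ) * σ := by
      rw [← Real.rpow_add_one h0.ne']; norm_num
    have e3 : σ1 ^ (7/4 : ℝ) = σ1 ^ (3/4 : ℝ) * σ1 := by
      rw [← Real.rpow_add_one h01.ne']; norm_num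
    have h5 : σ ^ (3/4 : ℝ) ≤ σ1 ^ (3/4 : ℝ) := Real.rpow_le_rpow h0.le h1 (by norm_num)
    calc σ ^ (7/4 : ℝ) * (σ1 / σ) = σ ^ (3/4 : ℝ) * σ1 := by rw [e2]; field_simp
      _ ≤ σ1 ^ (3/4 : ℝ) * σ1 := by gcongr
      _ = _ := e3.symm
  have h5 : 0 ≤ σ ^ (7/4 : ℝ) := by positivity
  calc σ ^ (7/4 : ℝ) * Real.log (1 / σ)
      = σ ^ (7/4 : ℝ) * Real.log (1 / σ1) + σ ^ (7/4 : ℝ) * Real.log (σ1 / σ) := by rw [e1]; ring
    _ ≤ σ1 ^ (7/4 : ℝ) * Real.log (1 / σ1) + σ ^ (7/4 : ℝ) * (σ1 / σ) := by gcongr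
    _ ≤ σ1 ^ (7/4 : ℝ) * Real.log (1 / σ1) + σ1 ^ (7/4 : ℝ) := by linarith
    _ = _ := by ring

/-- the logarithm of `b r ^ (7/4) L ^ e` -/
lemma log_form {b r L e : ℝ} (hb : 0 < b) (hr : 0 < r) (hL : L = Real.log (1 / r)) (hL1 : 1 ≤ L) :
    Real.log (1 / (b * r ^ (7/4 : ℝ) * L ^ e)) =
      Real.log (1 / b) + 7/4 * L - e * Real.log L := by
  have hL0 : 0 < L := by linarith
  have h1 : 0 < r ^ (7/4 : ℝ) := by positivity
  have h2 : 0 < L ^ e := by positivity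
  rw [one_div, Real.log_inv, Real.log_mul (by positivity) h2.ne', Real.log_mul hb.ne' h1.ne',
    Real.log_rpow hr, Real.log_rpow hL0, one_div, Real.log_inv]
  have h3 : Real.log r = - L := by rw [hL, one_div, Real.log_inv]; ring
  rw [h3]
  ring

lemma le_of_log {x r : ℝ} (hx : 0 < x) (hr : 0 < r) (h : Real.log (1 / r) ≤ Real.log (1 / x)) :
    x ≤ r := by
  have h1 : 1 / r ≤ 1 / x := (Real.log_le_log_iff (by positivity) (by positivity)).1 h
  rwa [one_div_le_one_div hr hx] at h1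

theorem area_low {C1 c2 C2 : ℝ} (hC1 : 0 < C1) (hc2 : 0 < c2) (hC2 : 0 < C2) :
    ∃ c : ℝ, 0 < c ∧ ∀ (f : C(unitInterval, ℂ)) (T : ℝ), SlowP f T C1 → ContP f T c2 C2 →
      ∀ s t : unitInterval, s < t → ∀ᶠ r : ℝ in 𝓝[>] 0, ∃ z ∈ f '' Icc s t, ∀ σ : ℝ, 0 < σ →
        σ ≤ r / Real.sqrt (Real.log (1 / r)) →
        c * σ ^ (1/4 : ℝ) * (r ^ (7/4 : ℝ) * Real.log (1 / r) ^ (1/8 : ℝ)) ≤
          (volume (Metric.thickening σ (f '' Icc s t) ∩ Metric.closedBall z r)).toReal := by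
  -- constants
  obtain ⟨κ, hκ0, hκ1, hκ⟩ : ∃ κ : ℝ, 0 < κ ∧ κ ≤ 1 ∧ C1 * κ ^ (4/7 : ℝ) ≤ 1 / 2 := by
    refine ⟨min 1 ((1 / (2 * C1)) ^ (7/4 : ℝ)), by positivity, min_le_left _ _, ?_⟩
    have h1 : (min 1 ((1 / (2 * C1)) ^ (7/4 : ℝ))) ^ (4/7 : ℝ) ≤ 1 / (2 * C1) := by
      calc (min 1 ((1 / (2 * C1)) ^ (7/4 : ℝ))) ^ (4/7 : ℝ)
          ≤ ((1 / (2 * C1)) ^ (7/4 : ℝ)) ^ (4/7 : ℝ) :=
            Real.rpow_le_rpow (by positivity) (min_le_right _ _) (by norm_num)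
        _ = 1 / (2 * C1) := by
            rw [← Real.rpow_mul (by positivity)]; norm_num
    calc C1 * (min 1 ((1 / (2 * C1)) ^ (7/4 : ℝ))) ^ (4/7 : ℝ) ≤ C1 * (1 / (2 * C1)) := by gcongr
      _ = 1 / 2 := by field_simp
  obtain ⟨lam, hlam0, hlam1, hlam⟩ : ∃ lam : ℝ, 0 < lam ∧ lam ≤ 1 / 2 ∧
      3 * C2 * lam ^ (7/4 : ℝ) ≤ κ := by
    refine ⟨min (1/2) ((κ / (3 * C2)) ^ (4/7 : ℝ)), by positivity, min_le_left _ _, ?_⟩
    have h1 : (min (1/2) ((κ / (3 * C2)) ^ (4/7 : ℝ))) ^ (7/4 : ℝ) ≤ κ / (3 * C2) := by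
      calc (min (1/2) ((κ / (3 * C2)) ^ (4/7 : ℝ))) ^ (7/4 : ℝ)
          ≤ ((κ / (3 * C2)) ^ (4/7 : ℝ)) ^ (7/4 : ℝ) :=
            Real.rpow_le_rpow (by positivity) (min_le_right _ _) (by norm_num)
        _ = κ / (3 * C2) := by
            rw [← Real.rpow_mul (by positivity)]; norm_num
    calc 3 * C2 * (min (1/2) ((κ / (3 * C2)) ^ (4/7 : ℝ))) ^ (7/4 : ℝ)
        ≤ 3 * C2 * (κ / (3 * C2)) := by gcongr
      _ = κ := by field_simp
  refine ⟨c2 * κ * lam ^ (1/4 : ℝ), by positivity, fun f T hS hA s t hst => ?_⟩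
  obtain ⟨ρ0, hρ0, hA⟩ := mem_nhdsGT_iff_exists_Ioo_subset.1 hA
  obtain ⟨h0, hh0, hS⟩ := mem_nhdsGT_iff_exists_Ioo_subset.1 (hS s t hst)
  simp only [mem_Ioi] at hρ0 hh0
  filter_upwards [ev_small (max 1 (2 * Real.log (1 / lam))) (min ρ0 h0) (by positivity)]
    with r ⟨hr0, hrB, hLA⟩
  set L : ℝ := Real.log (1 / r) with hL
  have hL1 : 1 ≤ L := (le_max_left _ _).trans hLA
  have hLlam : Real.log (1 / lam) ≤ L / 2 := by
    have := (le_max_right 1 (2 * Real.log (1 / lam))).trans hLA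
    linarith
  have hL0 : 0 < L := by linarith
  have hlogL : Real.log L ≤ L := (Real.log_le_sub_one_of_pos hL0).trans (by linarith)
  have hlogL0 : 0 ≤ Real.log L := Real.log_nonneg hL1
  -- the duration
  set h : ℝ := κ * r ^ (7/4 : ℝ) * L ^ (1/8 : ℝ) with hh
  have hhpos : 0 < h := by positivity
  have hlogh : L ≤ Real.log (1 / h) := by
    rw [hh, log_form hκ0 hr0 hL hL1]
    have h1 : 0 ≤ Real.log (1 / κ) := Real.log_nonneg (by rw [le_div_iff₀ hκ0]; linarith)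
    linarith
  have hhr : h ≤ r := le_of_log hhpos hr0 hlogh
  obtain ⟨u, v, hsu, huv, hvt, hT, hdiam⟩ := hS ⟨hhpos, lt_of_le_of_lt hhr
    (lt_of_lt_of_le hrB (min_le_right _ _))⟩
  have hdiam' : Metric.diam (f '' Icc u v) ≤ r / 2 := by
    refine hdiam.trans ?_
    have e1 : h ^ (4/7 : ℝ) = κ ^ (4/7 : ℝ) * r * L ^ (1/14 : ℝ) := by
      rw [hh, Real.mul_rpow (by positivity) (by positivity),
        Real.mul_rpow hκ0.le (by positivity), ← Real.rpow_mul hr0.le, ← Real.rpow_mul hL0.le]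
      norm_num
    have h2 : h ^ (4/7 : ℝ) / Real.log (1 / h) ^ (1/14 : ℝ) ≤ κ ^ (4/7 : ℝ) * r := by
      rw [div_le_iff₀ (by have := hL0.trans_le hlogh; positivity), e1]
      gcongr
    calc C1 * (h ^ (4/7 : ℝ) / Real.log (1 / h) ^ (1/14 : ℝ)) ≤ C1 * (κ ^ (4/7 : ℝ) * r) := by
          gcongr
      _ = C1 * κ ^ (4/7 : ℝ) * r := by ring
      _ ≤ 1 / 2 * r := by gcongr
      _ = r / 2 := by ring
  refine ⟨f u, ⟨u, ⟨hsu, huv.trans hvt⟩, rfl⟩, fun σ hσ0 hσ => ?_⟩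
  have hsq1 : 1 ≤ Real.sqrt L := Real.one_le_sqrt.2 hL1
  have hsq0 : 0 < Real.sqrt L := by linarith
  set σ1 : ℝ := lam * (r / Real.sqrt L) with hσ1
  have hσ10 : 0 < σ1 := by positivity
  have hrs : r / Real.sqrt L ≤ r := div_le_self hr0.le hsq1
  have hσ'0 : 0 < lam * σ := by positivity
  have hσ'1 : lam * σ ≤ σ1 := by rw [hσ1]; gcongr
  have hσ1r : σ1 ≤ r / 2 := by
    rw [hσ1]
    calc lam * (r / Real.sqrt L) ≤ 1 / 2 * r := by gcongr
      _ = r / 2 := by ring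
  have hlogσ1 : Real.log (1 / σ1) = Real.log (1 / lam) + L + 1 / 2 * Real.log L := by
    rw [hσ1, one_div, Real.log_inv, Real.log_mul hlam0.ne' (by positivity),
      Real.log_div hr0.ne' hsq0.ne', Real.log_sqrt hL0.le, one_div, Real.log_inv]
    have h3 : Real.log r = - L := by rw [hL, one_div, Real.log_inv]; ring
    rw [h3]
    ring
  have hloglam : 0 ≤ Real.log (1 / lam) :=
    Real.log_nonneg (by rw [le_div_iff₀ hlam0]; linarith)
  have hkey : C2 * (lam * σ) ^ (7/4 : ℝ) * Real.log (1 / (lam * σ)) ≤ T * ((v : ℝ) - u) := by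
    rw [hT]
    have h1 := sigma_log hσ'0 hσ'1 (by rw [hlogσ1]; positivity)
    have h2 : Real.log (1 / σ1) + 1 ≤ 3 * L := by rw [hlogσ1]; linarith
    have e2 : σ1 ^ (7/4 : ℝ) * L = lam ^ (7/4 : ℝ) * (r ^ (7/4 : ℝ) * L ^ (1/8 : ℝ)) := by
      rw [hσ1, Real.mul_rpow hlam0.le (by positivity), Real.div_rpow hr0.le hsq0.le,
        Real.sqrt_eq_rpow, ← Real.rpow_mul hL0.le]
      have e3 : L ^ (1/8 : ℝ) * L ^ (1 / 2 * (7/4) : ℝ) = L := by
        rw [← Real.rpow_add hL0]; norm_num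
      have h4 : 0 < L ^ (1 / 2 * (7/4) : ℝ) := by positivity
      have h5 : L / L ^ (1 / 2 * (7/4) : ℝ) = L ^ (1/8 : ℝ) := by
        rw [div_eq_iff h4.ne', e3]
      rw [← h5]
      ring
    calc C2 * (lam * σ) ^ (7/4 : ℝ) * Real.log (1 / (lam * σ))
        = C2 * ((lam * σ) ^ (7/4 : ℝ) * Real.log (1 / (lam * σ))) := by ring
      _ ≤ C2 * (σ1 ^ (7/4 : ℝ) * (Real.log (1 / σ1) + 1)) := by gcongr
      _ ≤ C2 * (σ1 ^ (7/4 : ℝ) * (3 * L)) := by gcongr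
      _ = 3 * C2 * (σ1 ^ (7/4 : ℝ) * L) := by ring
      _ = 3 * C2 * lam ^ (7/4 : ℝ) * (r ^ (7/4 : ℝ) * L ^ (1/8 : ℝ)) := by rw [e2]; ring
      _ ≤ κ * (r ^ (7/4 : ℝ) * L ^ (1/8 : ℝ)) := by gcongr
      _ = h := by rw [hh]; ring
  have hlow := (hA (show lam * σ ∈ Ioo 0 ρ0 from ⟨hσ'0, by
    have := min_le_left ρ0 h0
    linarith⟩) u v huv hkey).1
  rw [hT] at hlow
  have hsub : Metric.thickening (lam * σ) (f '' Icc u v) ⊆
      Metric.thickening σ (f '' Icc s t) ∩ Metric.closedBall (f u) r := by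
    intro w hw
    rw [Metric.mem_thickening_iff] at hw
    obtain ⟨y, ⟨x, hx, rfl⟩, hy⟩ := hw
    refine ⟨?_, ?_⟩
    · rw [Metric.mem_thickening_iff]
      refine ⟨f x, ⟨x, ⟨hsu.trans hx.1, hx.2.trans hvt⟩, rfl⟩, hy.trans_le ?_⟩
      nlinarith
    · rw [Metric.mem_closedBall]
      have h1 : dist (f x) (f u) ≤ Metric.diam (f '' Icc u v) :=
        Metric.dist_le_diam_of_mem (isCompact_Icc.image f.continuous).isBounded
          ⟨x, hx, rfl⟩ ⟨u, ⟨le_rfl, huv⟩, rfl⟩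
      have h2 := dist_triangle w (f x) (f u)
      linarith
  have hfin : volume (Metric.thickening σ (f '' Icc s t) ∩ Metric.closedBall (f u) r) ≠ ⊤ :=
    ne_top_of_le_ne_top (isCompact_closedBall (f u) r).measure_lt_top.ne
      (measure_mono inter_subset_right)
  refine le_trans (le_of_eq ?_) (hlow.trans (ENNReal.toReal_mono hfin (measure_mono hsub)))
  rw [Real.mul_rpow hlam0.le hσ0.le, hh]
  ring

/-! ### The upper bound -/

/-- the points of the partition -/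
noncomputable def tk (m k : ℕ) : unitInterval :=
  ⟨min ((k : ℝ) / m) 1, by positivity, min_le_right _ _⟩

lemma tk_mono (m : ℕ) : Monotone (tk m) := by
  intro a b hab
  change min ((a : ℝ) / m) 1 ≤ min ((b : ℝ) / m) 1
  have : (a : ℝ) ≤ b := by exact_mod_cast hab
  gcongr

lemma tk_coe {m k : ℕ} (hm : 0 < m) (hk : k ≤ m) : ((tk m k : unitInterval) : ℝ) = (k : ℝ) / m := by
  change min ((k : ℝ) / m) 1 = _
  rw [min_eq_left]
  rw [div_le_one (by exact_mod_cast hm)]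
  exact_mod_cast hk

lemma tk_cover {m : ℕ} (hm : 0 < m) (s : unitInterval) :
    ∃ k < m, s ∈ Icc (tk m k) (tk m (k + 1)) := by
  have hmR : (0 : ℝ) < m := by exact_mod_cast hm
  refine ⟨min ⌊(s : ℝ) * m⌋₊ (m - 1), by omega, ?_, ?_⟩
  · change ((tk m _ : unitInterval) : ℝ) ≤ s
    rw [tk_coe hm (by omega), div_le_iff₀ hmR]
    have h1 : (⌊(s : ℝ) * m⌋₊ : ℝ) ≤ s * m := Nat.floor_le (mul_nonneg s.2.1 hmR.le)
    refine le_trans ?_ h1
    exact_mod_cast min_le_left _ _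
  · change (s : ℝ) ≤ ((tk m _ : unitInterval) : ℝ)
    rw [tk_coe hm (by omega), le_div_iff₀ hmR]
    rcases le_or_gt ⌊(s : ℝ) * m⌋₊ (m - 1) with h | h
    · rw [min_eq_left h]
      push_cast
      exact (Nat.lt_floor_add_one _).le
    · rw [min_eq_right h.le, Nat.sub_add_cancel hm]
      have := s.2.2
      nlinarith

lemma vol_J {m k : ℕ} (hm : 0 < m) (hk : k < m) :
    volume (Ico (tk m k) (tk m (k + 1))) = ENNReal.ofReal (1 / m) := by
  rw [unitInterval.volume_Ico, tk_coe hm hk.le, tk_coe hm hk]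
  congr 1
  push_cast
  ring

theorem area_up {c2 C2 C3 C4 : ℝ} (hC2 : 0 < C2) (hC3 : 0 < C3) (hC4 : 0 < C4) :
    ∃ c C : ℝ, 0 < c ∧ 0 < C ∧ ∀ (f : C(unitInterval, ℂ)) (T : ℝ), 0 < T → ContP f T c2 C2 →
      ModP f T C3 → OccP f T C4 →
      ∀ᶠ r : ℝ in 𝓝[>] 0, ∀ σ : ℝ, 0 < σ → σ ≤ c * r / Real.log (1 / r) → ∀ z : ℂ,
        (volume (Metric.thickening σ (range f) ∩ Metric.closedBall z r)).toReal ≤
          C * σ ^ (1/4 : ℝ) * (r ^ (7/4 : ℝ) * Real.log (1 / r) ^ (1/8 : ℝ)) := by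
  classical
  -- constants
  obtain ⟨b, hb0, hb1, hb⟩ : ∃ b : ℝ, 0 < b ∧ b ≤ 1 ∧ 3 * C3 * b ^ (4/7 : ℝ) ≤ 1 := by
    refine ⟨min 1 ((1 / (3 * C3)) ^ (7/4 : ℝ)), by positivity, min_le_left _ _, ?_⟩
    have h1 : (min 1 ((1 / (3 * C3)) ^ (7/4 : ℝ))) ^ (4/7 : ℝ) ≤ 1 / (3 * C3) := by
      calc (min 1 ((1 / (3 * C3)) ^ (7/4 : ℝ))) ^ (4/7 : ℝ)
          ≤ ((1 / (3 * C3)) ^ (7/4 : ℝ)) ^ (4/7 : ℝ) :=
            Real.rpow_le_rpow (by positivity) (min_le_right _ _) (by norm_num)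
        _ = 1 / (3 * C3) := by
            rw [← Real.rpow_mul (by positivity)]; norm_num
    calc 3 * C3 * (min 1 ((1 / (3 * C3)) ^ (7/4 : ℝ))) ^ (4/7 : ℝ)
        ≤ 3 * C3 * (1 / (3 * C3)) := by gcongr
      _ = 1 := by field_simp
  obtain ⟨c, hc0, hc1, hc⟩ : ∃ c : ℝ, 0 < c ∧ c ≤ 1 ∧ 4 * C2 * c ^ (7/4 : ℝ) ≤ b / 2 := by
    refine ⟨min 1 ((b / 2 / (4 * C2)) ^ (4/7 : ℝ)), by positivity, min_le_left _ _, ?_⟩
    have h1 : (min 1 ((b / 2 / (4 * C2)) ^ (4/7 : ℝ))) ^ (7/4 : ℝ) ≤ b / 2 / (4 * C2) := by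
      calc (min 1 ((b / 2 / (4 * C2)) ^ (4/7 : ℝ))) ^ (7/4 : ℝ)
          ≤ ((b / 2 / (4 * C2)) ^ (4/7 : ℝ)) ^ (7/4 : ℝ) :=
            Real.rpow_le_rpow (by positivity) (min_le_right _ _) (by norm_num)
        _ = b / 2 / (4 * C2) := by
            rw [← Real.rpow_mul (by positivity)]; norm_num
    calc 4 * C2 * (min 1 ((b / 2 / (4 * C2)) ^ (4/7 : ℝ))) ^ (7/4 : ℝ)
        ≤ 4 * C2 * (b / 2 / (4 * C2)) := by gcongr
      _ = b / 2 := by field_simp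
  refine ⟨c, C2 * (9 * C4), hc0, by positivity, fun f T hT hA hM hO => ?_⟩
  obtain ⟨ρ0, hρ0, hA⟩ := mem_nhdsGT_iff_exists_Ioo_subset.1 hA
  simp only [mem_Ioi] at hρ0
  obtain ⟨h0, hh0, hM⟩ := hM
  obtain ⟨r0, hr00, hO⟩ := hO
  filter_upwards [ev_small (max 1 (max (2 * Real.log (1 / b)) (2 * Real.log (1 / c))))
    (min (min ρ0 h0) (min (r0 / 3) (min T (1 / 3)))) (by positivity)] with r ⟨hr0, hrB, hLA⟩
  have hrρ : r < ρ0 := hrB.trans_le ((min_le_left _ _).trans (min_le_left _ _))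
  have hrh : r < h0 := hrB.trans_le ((min_le_left _ _).trans (min_le_right _ _))
  have hrr : r < r0 / 3 := hrB.trans_le ((min_le_right _ _).trans (min_le_left _ _))
  have hrT : r < T := hrB.trans_le
    ((min_le_right _ _).trans ((min_le_right _ _).trans (min_le_left _ _)))
  have hr3 : r < 1 / 3 := hrB.trans_le
    ((min_le_right _ _).trans ((min_le_right _ _).trans (min_le_right _ _)))
  set L : ℝ := Real.log (1 / r) with hL
  have hL1 : 1 ≤ L := (le_max_left _ _).trans hLA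
  have hLb : Real.log (1 / b) ≤ L / 2 := by
    have := ((le_max_left _ _).trans (le_max_right 1 _)).trans hLA
    linarith
  have hLc : Real.log (1 / c) ≤ L / 2 := by
    have := ((le_max_right _ _).trans (le_max_right 1 _)).trans hLA
    linarith
  have hL0 : 0 < L := by linarith
  have hlogL : Real.log L ≤ L := (Real.log_le_sub_one_of_pos hL0).trans (by linarith)
  have hlogL0 : 0 ≤ Real.log L := Real.log_nonneg hL1
  have hlogr : Real.log r = - L := by rw [hL, one_div, Real.log_inv]; ring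
  have hlb0 : 0 ≤ Real.log (1 / b) := Real.log_nonneg (by rw [le_div_iff₀ hb0]; linarith)
  have hlc0 : 0 ≤ Real.log (1 / c) := Real.log_nonneg (by rw [le_div_iff₀ hc0]; linarith)
  -- the duration of the pieces
  set δ : ℝ := b * r ^ (7/4 : ℝ) * L ^ (-(3/4) : ℝ) with hδ
  have hδ0 : 0 < δ := by positivity
  have hlogδ : Real.log (1 / δ) = Real.log (1 / b) + 7/4 * L - (-(3/4)) * Real.log L := by
    rw [hδ, log_form hb0 hr0 hL hL1]
  have hδr : δ ≤ r := le_of_log hδ0 hr0 (by rw [hlogδ]; linarith)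
  have hlogδ3 : Real.log (1 / δ) ≤ 3 * L := by rw [hlogδ]; linarith
  have hlogδ0 : 0 ≤ Real.log (1 / δ) := by rw [hlogδ]; linarith
  have hmod : C3 * (δ ^ (4/7 : ℝ) * Real.log (1 / δ) ^ (3/7 : ℝ)) ≤ r := by
    have e1 : δ ^ (4/7 : ℝ) = b ^ (4/7 : ℝ) * r * L ^ (-(3/7) : ℝ) := by
      rw [hδ, Real.mul_rpow (by positivity) (by positivity),
        Real.mul_rpow hb0.le (by positivity), ← Real.rpow_mul hr0.le, ← Real.rpow_mul hL0.le]
      norm_num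
    have e2 : L ^ (-(3/7) : ℝ) * L ^ (3/7 : ℝ) = 1 := by
      rw [← Real.rpow_add hL0]; norm_num
    have h1 : Real.log (1 / δ) ^ (3/7 : ℝ) ≤ 3 * L ^ (3/7 : ℝ) := by
      calc Real.log (1 / δ) ^ (3/7 : ℝ) ≤ (3 * L) ^ (3/7 : ℝ) :=
            Real.rpow_le_rpow hlogδ0 hlogδ3 (by norm_num)
        _ = 3 ^ (3/7 : ℝ) * L ^ (3/7 : ℝ) := Real.mul_rpow (by norm_num) hL0.le
        _ ≤ 3 ^ (1 : ℝ) * L ^ (3/7 : ℝ) := by
            gcongr
            · norm_num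
            · norm_num
        _ = 3 * L ^ (3/7 : ℝ) := by norm_num
    calc C3 * (δ ^ (4/7 : ℝ) * Real.log (1 / δ) ^ (3/7 : ℝ))
        ≤ C3 * ((b ^ (4/7 : ℝ) * r * L ^ (-(3/7) : ℝ)) * (3 * L ^ (3/7 : ℝ))) := by
          rw [e1]; gcongr
      _ = (3 * C3 * b ^ (4/7 : ℝ)) * r * (L ^ (-(3/7) : ℝ) * L ^ (3/7 : ℝ)) := by ring
      _ ≤ 1 * r * (L ^ (-(3/7) : ℝ) * L ^ (3/7 : ℝ)) := by gcongr
      _ = r := by rw [e2]; ring
  -- the number of pieces
  set m : ℕ := ⌈T / δ⌉₊ with hm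
  have hm0 : 0 < m := Nat.ceil_pos.2 (by positivity)
  have hmR : (0 : ℝ) < m := by exact_mod_cast hm0
  set d : ℝ := T * (1 / m) with hd
  have hd0 : 0 < d := by positivity
  have hdδ : d ≤ δ := by
    have h1 : T / δ ≤ m := Nat.le_ceil _
    rw [div_le_iff₀ hδ0] at h1
    rw [hd, mul_one_div, div_le_iff₀ hmR]
    linarith
  have hδd : δ / 2 ≤ d := by
    have h1 : (m : ℝ) < T / δ + 1 := Nat.ceil_lt_add_one (by positivity)
    have h2 : 1 ≤ T / δ := by rw [le_div_iff₀ hδ0]; linarith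
    have h3 : (m : ℝ) ≤ 2 * (T / δ) := by linarith
    rw [hd, mul_one_div, le_div_iff₀ hmR]
    calc δ / 2 * m ≤ δ / 2 * (2 * (T / δ)) := by gcongr
      _ = T := by field_simp
  intro σ hσ0 hσ z
  have hσr : σ ≤ r := by
    refine hσ.trans ?_
    rw [div_le_iff₀ hL0]
    nlinarith
  -- content of a piece
  have hcond : ∀ k < m, T * (((tk m (k + 1) : unitInterval) : ℝ) - (tk m k : unitInterval)) = d := by
    intro k hk
    rw [tk_coe hm0 hk, tk_coe hm0 hk.le, hd]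
    push_cast
    ring
  have hpiece : ∀ k < m, (volume (Metric.thickening σ (f '' Icc (tk m k) (tk m (k + 1))))).toReal ≤
      C2 * d * σ ^ (1/4 : ℝ) := by
    intro k hk
    have hkey : C2 * σ ^ (7/4 : ℝ) * Real.log (1 / σ) ≤
        T * (((tk m (k + 1) : unitInterval) : ℝ) - (tk m k : unitInterval)) := by
      rw [hcond k hk]
      refine le_trans ?_ hδd
      have hσ10 : 0 < c * r / L := by positivity
      have hlogσ1 : Real.log (1 / (c * r / L)) = Real.log (1 / c) + L + Real.log L := by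
        rw [one_div, Real.log_inv, Real.log_div (by positivity) hL0.ne',
          Real.log_mul hc0.ne' hr0.ne', hlogr, one_div, Real.log_inv]
        ring
      have h1 := sigma_log hσ0 hσ (by rw [hlogσ1]; positivity)
      have h2 : Real.log (1 / (c * r / L)) + 1 ≤ 4 * L := by rw [hlogσ1]; linarith
      have e2 : (c * r / L) ^ (7/4 : ℝ) * L = c ^ (7/4 : ℝ) * (r ^ (7/4 : ℝ) * L ^ (-(3/4) : ℝ)) := by
        rw [Real.div_rpow (by positivity) hL0.le, Real.mul_rpow hc0.le hr0.le]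
        have e3 : L ^ (-(3/4) : ℝ) * L ^ (7/4 : ℝ) = L := by
          rw [← Real.rpow_add hL0]; norm_num
        have h4 : 0 < L ^ (7/4 : ℝ) := by positivity
        have h5 : L / L ^ (7/4 : ℝ) = L ^ (-(3/4) : ℝ) := by
          rw [div_eq_iff h4.ne', e3]
        rw [← h5]
        ring
      calc C2 * σ ^ (7/4 : ℝ) * Real.log (1 / σ)
          = C2 * (σ ^ (7/4 : ℝ) * Real.log (1 / σ)) := by ring
        _ ≤ C2 * ((c * r / L) ^ (7/4 : ℝ) * (Real.log (1 / (c * r / L)) + 1)) := by gcongr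
        _ ≤ C2 * ((c * r / L) ^ (7/4 : ℝ) * (4 * L)) := by gcongr
        _ = 4 * C2 * ((c * r / L) ^ (7/4 : ℝ) * L) := by ring
        _ = 4 * C2 * c ^ (7/4 : ℝ) * (r ^ (7/4 : ℝ) * L ^ (-(3/4) : ℝ)) := by rw [e2]; ring
        _ ≤ b / 2 * (r ^ (7/4 : ℝ) * L ^ (-(3/4) : ℝ)) := by gcongr
        _ = δ / 2 := by rw [hδ]; ring
    have h2 := (hA (show σ ∈ Ioo 0 ρ0 from ⟨hσ0, by linarith⟩) (tk m k) (tk m (k + 1))
      (tk_mono m (Nat.le_succ k)) hkey).2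
    rwa [hcond k hk] at h2
  -- the pieces which come near to the disc
  set 𝒦 : Finset ℕ := (Finset.range m).filter
    fun k => ∃ s ∈ Icc (tk m k) (tk m (k + 1)), dist (f s) z ≤ 2 * r with h𝒦
  have h𝒦m : ∀ k ∈ 𝒦, k < m := fun k hk => by
    rw [h𝒦, Finset.mem_filter, Finset.mem_range] at hk
    exact hk.1
  have hstay : ∀ k ∈ 𝒦, Ico (tk m k) (tk m (k + 1)) ⊆ {s | dist (f s) z ≤ 3 * r} := by
    intro k hk s hs
    have hkm := h𝒦m k hk
    rw [h𝒦, Finset.mem_filter] at hk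
    obtain ⟨-, x, hx, hxz⟩ := hk
    have h1 : |(s : ℝ) - x| * T ≤ δ := by
      have h2 : |(s : ℝ) - x| ≤ 1 / m := by
        have a1 : ((tk m k : unitInterval) : ℝ) ≤ s := hs.1
        have a2 : (s : ℝ) ≤ (tk m (k + 1) : unitInterval) := hs.2.le
        have a3 : ((tk m k : unitInterval) : ℝ) ≤ x := hx.1
        have a4 : (x : ℝ) ≤ (tk m (k + 1) : unitInterval) := hx.2
        rw [tk_coe hm0 hkm.le] at a1 a3
        rw [tk_coe hm0 hkm] at a2 a4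
        have a5 : (((k + 1 : ℕ) : ℝ)) / m = (k : ℝ) / m + 1 / m := by push_cast; ring
        rw [a5] at a2 a4
        rw [abs_le]
        constructor <;> linarith
      calc |(s : ℝ) - x| * T ≤ 1 / m * T := by gcongr
        _ = d := by rw [hd]; ring
        _ ≤ δ := hdδ
    have h3 := (hM δ hδ0 (by linarith) s x h1).trans hmod
    have h4 := dist_triangle (f s) (f x) z
    change dist (f s) z ≤ 3 * r
    linarith
  have hnum : (𝒦.card : ℝ) * d ≤ 9 * C4 * (r ^ (7/4 : ℝ) * L ^ (1/8 : ℝ)) := by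
    have hvol : (𝒦.card : ℝ) * (1 / m) ≤
        (volume {s : unitInterval | dist (f s) z ≤ 3 * r}).toReal := by
      have h1 : ∑ k ∈ 𝒦, volume (Ico (tk m k) (tk m (k + 1))) ≤
          volume {s : unitInterval | dist (f s) z ≤ 3 * r} := by
        rw [← measure_biUnion_finset]
        · exact measure_mono (iUnion₂_subset hstay)
        · intro i _ j _ hij
          exact (tk_mono m).pairwise_disjoint_on_Ico_succ hij
        · intro k _
          exact measurableSet_Ico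
      rw [Finset.sum_congr rfl fun k hk => vol_J hm0 (h𝒦m k hk), Finset.sum_const,
        nsmul_eq_mul] at h1
      have h2 := ENNReal.toReal_mono (measure_ne_top _ _) h1
      rwa [ENNReal.toReal_mul, ENNReal.toReal_natCast, ENNReal.toReal_ofReal (by positivity)] at h2
    have h3 := hO (3 * r) (by positivity) (by linarith) z
    have h4 : (3 * r) ^ (7/4 : ℝ) ≤ 9 * r ^ (7/4 : ℝ) := by
      rw [Real.mul_rpow (by norm_num) hr0.le]
      have h5 : (3 : ℝ) ^ (7/4 : ℝ) ≤ 9 := by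
        calc (3 : ℝ) ^ (7/4 : ℝ) ≤ (3 : ℝ) ^ (2 : ℝ) :=
              Real.rpow_le_rpow_of_exponent_le (by norm_num) (by norm_num)
          _ = 9 := by norm_num
      gcongr
    have h7 : 0 ≤ Real.log (1 / (3 * r)) := by
      apply Real.log_nonneg
      rw [le_div_iff₀ (by positivity)]
      linarith
    have h8 : 0 ≤ Real.log (1 / (3 * r)) ^ (1/8 : ℝ) := Real.rpow_nonneg h7 _
    have h6 : Real.log (1 / (3 * r)) ^ (1/8 : ℝ) ≤ L ^ (1/8 : ℝ) := by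
      apply Real.rpow_le_rpow h7
      · apply Real.log_le_log (by positivity)
        apply one_div_le_one_div_of_le hr0
        linarith
      · norm_num
    calc (𝒦.card : ℝ) * d = T * ((𝒦.card : ℝ) * (1 / m)) := by rw [hd]; ring
      _ ≤ T * (volume {s : unitInterval | dist (f s) z ≤ 3 * r}).toReal := by gcongr
      _ ≤ C4 * ((3 * r) ^ (7/4 : ℝ) * Real.log (1 / (3 * r)) ^ (1/8 : ℝ)) := h3
      _ ≤ C4 * (9 * r ^ (7/4 : ℝ) * L ^ (1/8 : ℝ)) := by gcongr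
      _ = _ := by ring
  -- the area
  have hsub : Metric.thickening σ (range f) ∩ Metric.closedBall z r ⊆
      ⋃ k ∈ 𝒦, Metric.thickening σ (f '' Icc (tk m k) (tk m (k + 1))) := by
    rintro w ⟨hw, hwz⟩
    rw [Metric.mem_thickening_iff] at hw
    obtain ⟨y, ⟨s, rfl⟩, hy⟩ := hw
    obtain ⟨k, hk, hs⟩ := tk_cover hm0 s
    rw [Metric.mem_closedBall] at hwz
    simp only [mem_iUnion, exists_prop]
    refine ⟨k, ?_, ?_⟩
    · rw [h𝒦, Finset.mem_filter, Finset.mem_range]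
      refine ⟨hk, s, hs, ?_⟩
      have := dist_triangle_left (f s) z w
      linarith
    · rw [Metric.mem_thickening_iff]
      exact ⟨f s, ⟨s, hs, rfl⟩, hy⟩
  have hfin : ∀ k, volume (Metric.thickening σ (f '' Icc (tk m k) (tk m (k + 1)))) ≠ ⊤ := by
    intro k
    exact ((isCompact_Icc.image f.continuous).isBounded.thickening).measure_lt_top.ne
  have hsum : (volume (Metric.thickening σ (range f) ∩ Metric.closedBall z r)).toReal ≤
      ∑ k ∈ 𝒦, (volume (Metric.thickening σ (f '' Icc (tk m k) (tk m (k + 1))))).toReal := by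
    rw [← ENNReal.toReal_sum fun k _ => hfin k]
    apply ENNReal.toReal_mono
    · exact ENNReal.sum_ne_top.2 fun k _ => hfin k
    · exact (measure_mono hsub).trans (measure_biUnion_finset_le _ _)
  calc (volume (Metric.thickening σ (range f) ∩ Metric.closedBall z r)).toReal
      ≤ ∑ k ∈ 𝒦, (volume (Metric.thickening σ (f '' Icc (tk m k) (tk m (k + 1))))).toReal := hsum
    _ ≤ ∑ k ∈ 𝒦, C2 * d * σ ^ (1/4 : ℝ) := Finset.sum_le_sum fun k hk => hpiece k (h𝒦m k hk)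
    _ = C2 * σ ^ (1/4 : ℝ) * ((𝒦.card : ℝ) * d) := by
        rw [Finset.sum_const, nsmul_eq_mul]; ring
    _ ≤ C2 * σ ^ (1/4 : ℝ) * (9 * C4 * (r ^ (7/4 : ℝ) * L ^ (1/8 : ℝ))) := by gcongr
    _ = C2 * (9 * C4) * σ ^ (1/4 : ℝ) * (r ^ (7/4 : ℝ) * L ^ (1/8 : ℝ)) := by ring

end Pool.Agent.K9h27.PF
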