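import Pool.Agent.K9h27.PF.Sq

/-!
Conformal Assouad dimension; it is `2` for the plane sets which are dense in discs.
-/

set_option autoImplicit false

namespace Pool.Agent.K9h27.PF

open MeasureTheory Set Filter Topology
open scoped ENNReal NNReal

/-- The Assouad condition with exponent `α`: for `0 < ρ ≤ R` the part of `Z` in a ball of radius `R`
around a point of `Z` is covered by at most `C (R / ρ) ^ α` sets of diameter at most `ρ`. -/
def AssouadBound {Y : Type} [MetricSpace Y] (Z : Set Y) (α : ℝ) : Prop :=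
  ∃ C : ℝ, ∀ z ∈ Z, ∀ R ρ : ℝ, 0 < ρ → ρ ≤ R → ∃ P : Finset (Set Y),
    (P.card : ℝ) ≤ C * (R / ρ) ^ α ∧ (∀ S ∈ P, ∀ x ∈ S, ∀ y ∈ S, dist x y ≤ ρ) ∧
      Z ∩ Metric.closedBall z R ⊆ ⋃ S ∈ P, S

/-- The Assouad dimension. -/
noncomputable def assouadDim {Y : Type} [MetricSpace Y] (Z : Set Y) : ℝ≥0∞ :=
  ⨅ (α : ℝ≥0) (_ : AssouadBound Z (α : ℝ)), (α : ℝ≥0∞)

/-- Quasisymmetric embeddings. -/
def QuasiSymmetric {A Y : Type} [MetricSpace A] [MetricSpace Y] (φ : A → Y) : Prop :=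
  Function.Injective φ ∧ ∃ η : ℝ≥0 ≃ₜ ℝ≥0, ∀ (t : ℝ≥0) (x a b : A),
    dist x a ≤ t * dist x b → dist (φ x) (φ a) ≤ η t * dist (φ x) (φ b)

/-- The conformal Assouad dimension: the infimum of the Assouad dimensions of the quasisymmetric
images. -/
noncomputable def conformalAssouadDim (A : Type) [MetricSpace A] : ℝ≥0∞ :=
  ⨅ (Y : Type) (_ : MetricSpace Y) (φ : A → Y) (_ : QuasiSymmetric φ), assouadDim (range φ)

/-! ### Sums and counting -/

lemma tele (ρ T : ℝ) (h : ρ ≤ T) (K : ℕ) :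
    ρ ≤ T / 2 ^ K + ∑ k ∈ Finset.range K, (if T / 2 ^ (k + 1) ≤ ρ then T / 2 ^ (k + 1) else 0) := by
  induction K with
  | zero => simpa using h
  | succ K ih =>
    rw [Finset.sum_range_succ]
    by_cases hc : T / 2 ^ (K + 1) ≤ ρ
    · rw [if_pos hc]
      have e : T / 2 ^ K = T / 2 ^ (K + 1) + T / 2 ^ (K + 1) := by
        rw [pow_succ]; field_simp; ring
      linarith
    · rw [if_neg hc]
      push Not at hc
      have h0 : 0 ≤ ∑ k ∈ Finset.range K,
          (if T / 2 ^ (k + 1) ≤ ρ then T / 2 ^ (k + 1) else 0) := by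
        apply Finset.sum_nonneg
        intro k _
        split_ifs with h1
        · by_contra hneg
          push Not at hneg
          have hT : T < 0 := by
            by_contra hT
            push Not at hT
            exact absurd hneg (not_lt.2 (by positivity))
          have h2 : T ≤ T / 2 ^ (k + 1) := by
            rw [le_div_iff₀ (by positivity)]
            have : (1 : ℝ) ≤ 2 ^ (k + 1) := one_le_pow₀ (by norm_num)
            nlinarith
          have h3 : ρ = T / 2 ^ (k + 1) ∨ T / 2 ^ (k + 1) < ρ := h1.eq_or_lt.imp (fun h => h.symm) id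
          have h4 : (2 : ℝ) ≤ 2 ^ (k + 1) := by
            calc (2 : ℝ) = 2 ^ 1 := by norm_num
              _ ≤ 2 ^ (k + 1) := pow_le_pow_right₀ (by norm_num) (by omega)
          have h5 : T < T / 2 ^ (k + 1) := by
            rw [lt_div_iff₀ (by positivity)]
            nlinarith
          linarith
        · exact le_rfl
      linarith

/-- Counting: separated points and the Assouad condition. -/
lemma count {Y : Type} [MetricSpace Y] {ι : Type} (S : Finset ι) (b : ι → Y) {ρ : ℝ}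
    (P : Finset (Set Y)) (hP : ∀ U ∈ P, ∀ x ∈ U, ∀ y ∈ U, dist x y ≤ ρ)
    (hcov : ∀ p ∈ S, b p ∈ ⋃ U ∈ P, U)
    (hsep : ∀ p ∈ S, ∀ q ∈ S, p ≠ q → ρ < dist (b p) (b q)) : S.card ≤ P.card := by
  classical
  have hex : ∀ p : ι, ∃ U : Set Y, p ∈ S → U ∈ P ∧ b p ∈ U := by
    intro p
    by_cases hp : p ∈ S
    · have := hcov p hp
      simp only [mem_iUnion, exists_prop] at this
      obtain ⟨U, hU, hb⟩ := this
      exact ⟨U, fun _ => ⟨hU, hb⟩⟩
    · exact ⟨∅, fun h => absurd h hp⟩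
  choose g hg using hex
  apply Finset.card_le_card_of_injOn g
  · intro p hp
    exact (hg p hp).1
  · intro p hp q hq hpq
    by_contra hne
    have h1 := hsep p hp q hq hne
    have h2 := hP (g p) (hg p hp).1 (b p) (hg p hp).2 (b q) (by rw [hpq]; exact (hg q hq).2)
    linarith

/-! ### The grid -/

lemma grid {E : Set ℂ} (hE : ∀ ε : ℝ, 0 < ε → DenseInDisc E ε) (M : ℕ) (hM : 1 ≤ M) :
    ∃ (z : ℂ) (h : ℝ) (a : ℕ → ℕ → E), 0 < h ∧ ∀ i < M, ∀ j < M,
      |(a i j : ℂ).re - z.re - h * i| ≤ h / 8 ∧ |(a i j : ℂ).im - z.im - h * j| ≤ h / 8 := by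
  have hM0 : (0 : ℝ) < M := by exact_mod_cast hM
  obtain ⟨z, r, hr0, -, hd⟩ := hE (1 / (16 * M)) (by positivity)
  have hex : ∀ i j : ℕ, ∃ e : E, i < M → j < M →
      dist (⟨z.re + r / (2 * M) * i, z.im + r / (2 * M) * j⟩ : ℂ) e ≤ 1 / (16 * M) * r := by
    intro i j
    by_cases hij : i < M ∧ j < M
    · have hmem : (⟨z.re + r / (2 * M) * i, z.im + r / (2 * M) * j⟩ : ℂ) ∈ Metric.closedBall z r := by
        rw [Metric.mem_closedBall, Complex.dist_eq]
        refine (Complex.norm_le_abs_re_add_abs_im _).trans ?_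
        simp only [Complex.sub_re, Complex.sub_im, add_sub_cancel_left]
        rw [abs_of_nonneg (by positivity), abs_of_nonneg (by positivity)]
        have hi : (i : ℝ) ≤ M := by exact_mod_cast hij.1.le
        have hj : (j : ℝ) ≤ M := by exact_mod_cast hij.2.le
        calc r / (2 * M) * i + r / (2 * M) * j ≤ r / (2 * M) * M + r / (2 * M) * M := by gcongr
          _ = r := by field_simp; ring
      obtain ⟨e, he, hde⟩ := hd _ hmem
      exact ⟨⟨e, he⟩, fun _ _ => hde⟩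
    · obtain ⟨e, he, -⟩ := hd z (Metric.mem_closedBall_self hr0.le)
      exact ⟨⟨e, he⟩, fun h1 h2 => absurd ⟨h1, h2⟩ hij⟩
  choose a ha using hex
  refine ⟨z, r / (2 * M), a, by positivity, fun i hi j hj => ?_⟩
  have h1 := ha i j hi hj
  rw [dist_comm, Complex.dist_eq] at h1
  have e1 : 1 / (16 * (M : ℝ)) * r = r / (2 * M) / 8 := by field_simp; norm_num
  rw [e1] at h1
  constructor
  · refine le_trans (le_of_eq ?_) ((Complex.abs_re_le_norm _).trans h1)
    congr 1
    simp only [Complex.sub_re]; ring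
  · refine le_trans (le_of_eq ?_) ((Complex.abs_im_le_norm _).trans h1)
    congr 1
    simp only [Complex.sub_im]; ring

lemma dist_up {E : Set ℂ} {M : ℕ} {z : ℂ} {h : ℝ} {a : ℕ → ℕ → E}
    (ha : ∀ i < M, ∀ j < M,
      |(a i j : ℂ).re - z.re - h * i| ≤ h / 8 ∧ |(a i j : ℂ).im - z.im - h * j| ≤ h / 8)
    {i j k l : ℕ} (hi : i < M) (hj : j < M) (hk : k < M) (hl : l < M) :
    dist (a i j) (a k l) ≤ |h * i - h * k| + |h * j - h * l| + h / 2 := by
  rw [Subtype.dist_eq, Complex.dist_eq]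
  refine (Complex.norm_le_abs_re_add_abs_im _).trans ?_
  simp only [Complex.sub_re, Complex.sub_im]
  obtain ⟨h1, h2⟩ := ha i hi j hj
  obtain ⟨h3, h4⟩ := ha k hk l hl
  have e1 : (a i j : ℂ).re - (a k l : ℂ).re =
      ((a i j : ℂ).re - z.re - h * i) - ((a k l : ℂ).re - z.re - h * k) + (h * i - h * k) := by ring
  have e2 : (a i j : ℂ).im - (a k l : ℂ).im =
      ((a i j : ℂ).im - z.im - h * j) - ((a k l : ℂ).im - z.im - h * l) + (h * j - h * l) := by ring
  rw [e1, e2]
  have f1 := abs_add_le (((a i j : ℂ).re - z.re - h * i) - ((a k l : ℂ).re - z.re - h * k))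
    (h * i - h * k)
  have f2 := abs_sub ((a i j : ℂ).re - z.re - h * i) ((a k l : ℂ).re - z.re - h * k)
  have f3 := abs_add_le (((a i j : ℂ).im - z.im - h * j) - ((a k l : ℂ).im - z.im - h * l))
    (h * j - h * l)
  have f4 := abs_sub ((a i j : ℂ).im - z.im - h * j) ((a k l : ℂ).im - z.im - h * l)
  linarith

lemma dist_lo {E : Set ℂ} {M : ℕ} {z : ℂ} {h : ℝ} {a : ℕ → ℕ → E}
    (ha : ∀ i < M, ∀ j < M,
      |(a i j : ℂ).re - z.re - h * i| ≤ h / 8 ∧ |(a i j : ℂ).im - z.im - h * j| ≤ h / 8)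
    {i j k l : ℕ} (hi : i < M) (hj : j < M) (hk : k < M) (hl : l < M) :
    |h * i - h * k| - h / 4 ≤ dist (a i j) (a k l) ∧
      |h * j - h * l| - h / 4 ≤ dist (a i j) (a k l) := by
  rw [Subtype.dist_eq, Complex.dist_eq]
  obtain ⟨h1, h2⟩ := ha i hi j hj
  obtain ⟨h3, h4⟩ := ha k hk l hl
  have g1 := Complex.abs_re_le_norm ((a i j : ℂ) - a k l)
  have g2 := Complex.abs_im_le_norm ((a i j : ℂ) - a k l)
  simp only [Complex.sub_re, Complex.sub_im] at g1 g2
  have e1 : h * i - h * k = (a i j : ℂ).re - (a k l : ℂ).re -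
      (((a i j : ℂ).re - z.re - h * i) - ((a k l : ℂ).re - z.re - h * k)) := by ring
  have e2 : h * j - h * l = (a i j : ℂ).im - (a k l : ℂ).im -
      (((a i j : ℂ).im - z.im - h * j) - ((a k l : ℂ).im - z.im - h * l)) := by ring
  have f1 := abs_sub ((a i j : ℂ).re - (a k l : ℂ).re)
    (((a i j : ℂ).re - z.re - h * i) - ((a k l : ℂ).re - z.re - h * k))
  have f2 := abs_sub ((a i j : ℂ).re - z.re - h * i) ((a k l : ℂ).re - z.re - h * k)
  have f3 := abs_sub ((a i j : ℂ).im - (a k l : ℂ).im)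
    (((a i j : ℂ).im - z.im - h * j) - ((a k l : ℂ).im - z.im - h * l))
  have f4 := abs_sub ((a i j : ℂ).im - z.im - h * j) ((a k l : ℂ).im - z.im - h * l)
  rw [e1, e2]
  constructor <;> linarith

/-! ### The lower bound -/

section Core

variable {Y : Type} [MetricSpace Y] {E : Set ℂ} {φ : E → Y} {H : ℝ}

/-- everything which is needed of a grid of points and their images -/
structure GridData (φ : E → Y) (H : ℝ) (M : ℕ) (a : ℕ → ℕ → E) : Prop where
  pos : 0 < dist (φ (a 0 0)) (φ (a (M - 1) 0))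
  ball : ∀ i < M, ∀ j < M, dist (φ (a i j)) (φ (a 0 0)) ≤ H * dist (φ (a 0 0)) (φ (a (M - 1) 0))
  row : ∀ j < M, dist (φ (a 0 0)) (φ (a (M - 1) 0)) ≤
    2 * H * dist (φ (a 0 j)) (φ (a (M - 1) j))
  sep : ∀ i < M - 1, ∀ j < M, ∀ k < M, ∀ l < M, (i, j) ≠ (k, l) →
    dist (φ (a i j)) (φ (a (i + 1) j)) ≤ H * dist (φ (a i j)) (φ (a k l))

lemma gridData (hφi : Function.Injective φ)
    (hφ : ∀ x a b : E, dist x a ≤ 4 * dist x b → dist (φ x) (φ a) ≤ H * dist (φ x) (φ b))
    (hE : ∀ ε : ℝ, 0 < ε → DenseInDisc E ε) (M : ℕ) (hM : 2 ≤ M) :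
    ∃ a : ℕ → ℕ → E, GridData φ H M a := by
  obtain ⟨z, h, a, h0, ha⟩ := grid hE M (by omega)
  have hup := fun {i j k l : ℕ} => dist_up (i := i) (j := j) (k := k) (l := l) ha
  have hlo := fun {i j k l : ℕ} => dist_lo (i := i) (j := j) (k := k) (l := l) ha
  have hM1 : ((M - 1 : ℕ) : ℝ) = (M : ℝ) - 1 := by
    rw [Nat.cast_sub (by omega)]; simp
  have hMR : (2 : ℝ) ≤ M := by exact_mod_cast hM
  set L : ℝ := h * (M - 1) with hL
  have hLh : h ≤ L := by rw [hL]; nlinarith
  have hidx : ∀ i < M, 0 ≤ h * (i : ℝ) ∧ h * (i : ℝ) ≤ L := by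
    intro i hi
    have h1 : (i : ℝ) + 1 ≤ M := by exact_mod_cast hi
    exact ⟨by positivity, by rw [hL]; apply mul_le_mul_of_nonneg_left _ h0.le; linarith⟩
  have hlong : ∀ j < M, ∀ l < M, 3 / 4 * L ≤ dist (a 0 j) (a (M - 1) l) := by
    intro j hj l hl
    have h1 := (hlo (i := 0) (j := j) (k := M - 1) (l := l) (by omega) hj (by omega) hl).1
    rw [hM1] at h1
    simp only [Nat.cast_zero, mul_zero, zero_sub, abs_neg] at h1
    rw [← hL, abs_of_nonneg (by linarith)] at h1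
    linarith
  refine ⟨a, ?_, ?_, ?_, ?_⟩
  · rw [dist_pos]
    intro he
    have h1 := hφi he
    have h2 := hlong 0 (by omega) 0 (by omega)
    rw [h1, dist_self] at h2
    linarith
  · intro i hi j hj
    rw [dist_comm]
    apply hφ
    have h1 := hup (i := 0) (j := 0) (k := i) (l := j) (by omega) (by omega) hi hj
    have h2 := hlong 0 (by omega) 0 (by omega)
    obtain ⟨i1, i2⟩ := hidx i hi
    obtain ⟨j1, j2⟩ := hidx j hj
    simp only [Nat.cast_zero, mul_zero, zero_sub, abs_neg] at h1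
    rw [abs_of_nonneg i1, abs_of_nonneg j1] at h1
    linarith
  · intro j hj
    have h2 := hlong j hj j hj
    obtain ⟨j1, j2⟩ := hidx j hj
    have t1 : dist (φ (a 0 j)) (φ (a 0 0)) ≤ H * dist (φ (a 0 j)) (φ (a (M - 1) j)) := by
      apply hφ
      have h1 := hup (i := 0) (j := j) (k := 0) (l := 0) (by omega) hj (by omega) (by omega)
      simp only [Nat.cast_zero, mul_zero, sub_zero, abs_zero] at h1
      rw [abs_of_nonneg j1] at h1
      linarith
    have t2 : dist (φ (a 0 j)) (φ (a (M - 1) 0)) ≤ H * dist (φ (a 0 j)) (φ (a (M - 1) j)) := by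
      apply hφ
      have h1 := hup (i := 0) (j := j) (k := M - 1) (l := 0) (by omega) hj (by omega) (by omega)
      rw [hM1] at h1
      simp only [Nat.cast_zero, mul_zero, sub_zero, zero_sub, abs_neg] at h1
      rw [← hL, abs_of_nonneg j1, abs_of_nonneg (by linarith)] at h1
      linarith
    have t3 := dist_triangle_left (φ (a 0 0)) (φ (a (M - 1) 0)) (φ (a 0 j))
    linarith
  · intro i hi j hj k hk l hl hne
    apply hφ
    have h1 := hup (i := i) (j := j) (k := i + 1) (l := j) (by omega) hj (by omega) hj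
    have e1 : h * (i : ℝ) - h * ((i + 1 : ℕ) : ℝ) = -h := by push_cast; ring
    rw [e1, sub_self, abs_zero, abs_neg, abs_of_pos h0] at h1
    have h3 := hlo (i := i) (j := j) (k := k) (l := l) (by omega) hj hk hl
    have h4 : h ≤ |h * i - h * k| ∨ h ≤ |h * j - h * l| := by
      have hcases : i ≠ k ∨ j ≠ l := by
        by_contra hc
        push Not at hc
        exact hne (by rw [hc.1, hc.2])
      have aux : ∀ m n : ℕ, m ≠ n → h ≤ |h * (m : ℝ) - h * (n : ℝ)| := by
        intro m n hmn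
        rw [← mul_sub, abs_mul, abs_of_pos h0]
        have : (1 : ℝ) ≤ |(m : ℝ) - n| := by
          have h5 : (1 : ℤ) ≤ |(m : ℤ) - n| := Int.one_le_abs (by omega)
          exact_mod_cast h5
        nlinarith
      rcases hcases with hc | hc
      · exact Or.inl (aux i k hc)
      · exact Or.inr (aux j l hc)
    rcases h4 with h4 | h4
    · linarith [h3.1]
    · linarith [h3.2]

/-- The main counting argument. -/
lemma core_le (hH : 1 ≤ H) {C α : ℝ}
    (hA : ∀ z ∈ range φ, ∀ R ρ : ℝ, 0 < ρ → ρ ≤ R → ∃ P : Finset (Set Y),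
      (P.card : ℝ) ≤ C * (R / ρ) ^ α ∧ (∀ S ∈ P, ∀ x ∈ S, ∀ y ∈ S, dist x y ≤ ρ) ∧
        range φ ∩ Metric.closedBall z R ⊆ ⋃ S ∈ P, S)
    {M : ℕ} (hM : 2 ≤ M) {a : ℕ → ℕ → E} (hG : GridData φ H M a) (K : ℕ) :
    (M : ℝ) / (2 * H) ≤ (M : ℝ) ^ 2 * (2 * H / 2 ^ K) +
      ∑ k ∈ Finset.range K, C * (H * 2 ^ (k + 1)) ^ α * (2 * H / 2 ^ (k + 1)) := by
  classical
  set D : ℝ := dist (φ (a 0 0)) (φ (a (M - 1) 0)) with hD
  have hD0 : 0 < D := hG.pos
  have hH0 : 0 < H := by linarith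
  have hMR : (2 : ℝ) ≤ M := by exact_mod_cast hM
  set T : ℝ := 2 * H * D with hT
  have hT0 : 0 < T := by positivity
  let ρ : ℕ × ℕ → ℝ := fun p => dist (φ (a p.1 p.2)) (φ (a (p.1 + 1) p.2))
  let I : Finset (ℕ × ℕ) := Finset.range (M - 1) ×ˢ Finset.range M
  have hIm : ∀ p ∈ I, p.1 < M - 1 ∧ p.2 < M := by
    intro p hp
    simpa [I] using hp
  -- total
  have htot : M * (D / (2 * H)) ≤ ∑ p ∈ I, ρ p := by
    rw [Finset.sum_product_right]
    have hrow : ∀ j ∈ Finset.range M, D / (2 * H) ≤ ∑ i ∈ Finset.range (M - 1), ρ (i, j) := by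
      intro j hj
      have h1 := hG.row j (Finset.mem_range.1 hj)
      have h2 := dist_le_range_sum_dist (fun i => φ (a i j)) (M - 1)
      rw [div_le_iff₀ (by positivity)]
      simp only [ρ]
      have h3 : 2 * H * dist (φ (a 0 j)) (φ (a (M - 1) j)) ≤ 2 * H *
          ∑ i ∈ Finset.range (M - 1), dist (φ (a i j)) (φ (a (i + 1) j)) := by gcongr
      linarith
    calc (M : ℝ) * (D / (2 * H)) = ∑ j ∈ Finset.range M, D / (2 * H) := by
          rw [Finset.sum_const, Finset.card_range, nsmul_eq_mul]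
      _ ≤ _ := Finset.sum_le_sum hrow
  -- each one is at most `T`
  have hρT : ∀ p ∈ I, ρ p ≤ T := by
    intro p hp
    obtain ⟨h1, h2⟩ := hIm p hp
    have h3 := hG.ball p.1 (by omega) p.2 h2
    have h4 := hG.ball (p.1 + 1) (by omega) p.2 h2
    have h5 := dist_triangle_right (φ (a p.1 p.2)) (φ (a (p.1 + 1) p.2)) (φ (a 0 0))
    simp only [ρ]
    rw [hT]
    linarith
  -- counting
  have hcount : ∀ k : ℕ, (((I.filter fun p => T / 2 ^ (k + 1) ≤ ρ p).card : ℕ) : ℝ) ≤
      C * (H * 2 ^ (k + 1)) ^ α := by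
    intro k
    set τ : ℝ := T / 2 ^ (k + 1) with hτ
    have hτ0 : 0 < τ := by positivity
    have h2k : (1 : ℝ) ≤ 2 ^ (k + 1) := one_le_pow₀ (by norm_num)
    obtain ⟨P, hP1, hP2, hP3⟩ := hA (φ (a 0 0)) (mem_range_self _) (H * D) (τ / (2 * H))
      (by positivity) (by
        rw [div_le_iff₀ (by positivity), hτ]
        calc T / 2 ^ (k + 1) ≤ T := div_le_self hT0.le h2k
          _ = 2 * H * D * 1 := by rw [hT]; ring
          _ ≤ 2 * H * D * H := by gcongr
          _ = H * D * (2 * H) := by ring)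
    have e1 : H * D / (τ / (2 * H)) = H * 2 ^ (k + 1) := by
      rw [hτ, hT]; field_simp
    rw [e1] at hP1
    refine le_trans ?_ hP1
    norm_cast
    apply count (I.filter fun p => T / 2 ^ (k + 1) ≤ ρ p) (fun p => φ (a p.1 p.2)) P hP2
    · intro p hp
      rw [Finset.mem_filter] at hp
      obtain ⟨h1, h2⟩ := hIm p hp.1
      apply hP3
      refine ⟨mem_range_self _, ?_⟩
      rw [Metric.mem_closedBall]
      exact hG.ball p.1 (by omega) p.2 h2
    · intro p hp q hq hne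
      rw [Finset.mem_filter] at hp hq
      obtain ⟨h1, h2⟩ := hIm p hp.1
      obtain ⟨h3, h4⟩ := hIm q hq.1
      have h5 := hG.sep p.1 h1 p.2 h2 q.1 (by omega) q.2 h4 (by
        rw [Prod.mk.eta, Prod.mk.eta]; exact hne)
      have h6 : τ ≤ H * dist (φ (a p.1 p.2)) (φ (a q.1 q.2)) := hp.2.trans h5
      rw [div_lt_iff₀ (by positivity)]
      have : 0 < dist (φ (a p.1 p.2)) (φ (a q.1 q.2)) := by
        by_contra hc
        push Not at hc
        nlinarith
      nlinarith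
  -- sum up
  have hsum : ∑ p ∈ I, ρ p ≤ (M : ℝ) ^ 2 * (T / 2 ^ K) +
      ∑ k ∈ Finset.range K, C * (H * 2 ^ (k + 1)) ^ α * (T / 2 ^ (k + 1)) := by
    calc ∑ p ∈ I, ρ p ≤ ∑ p ∈ I, (T / 2 ^ K + ∑ k ∈ Finset.range K,
          (if T / 2 ^ (k + 1) ≤ ρ p then T / 2 ^ (k + 1) else 0)) :=
          Finset.sum_le_sum fun p hp => tele (ρ p) T (hρT p hp) K
      _ = (I.card : ℝ) * (T / 2 ^ K) + ∑ k ∈ Finset.range K,
          ((I.filter fun p => T / 2 ^ (k + 1) ≤ ρ p).card : ℝ) * (T / 2 ^ (k + 1)) := by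
          rw [Finset.sum_add_distrib, Finset.sum_const, nsmul_eq_mul, Finset.sum_comm]
          congr 1
          apply Finset.sum_congr rfl
          intro k _
          rw [← Finset.sum_filter, Finset.sum_const, nsmul_eq_mul]
      _ ≤ _ := by
          gcongr with k _
          · have hc : I.card = (M - 1) * M := by
              simp [I]
            rw [hc]
            have : ((M - 1) * M : ℕ) ≤ M ^ 2 := by
              rw [pow_two]; exact Nat.mul_le_mul_right _ (Nat.sub_le _ _)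
            exact_mod_cast this
          · exact hcount k
  have hfin := htot.trans hsum
  -- divide by `D`
  have e2 : (M : ℝ) * (D / (2 * H)) = D * (M / (2 * H)) := by ring
  have e3 : (M : ℝ) ^ 2 * (T / 2 ^ K) +
      ∑ k ∈ Finset.range K, C * (H * 2 ^ (k + 1)) ^ α * (T / 2 ^ (k + 1)) =
      D * ((M : ℝ) ^ 2 * (2 * H / 2 ^ K) +
      ∑ k ∈ Finset.range K, C * (H * 2 ^ (k + 1)) ^ α * (2 * H / 2 ^ (k + 1))) := by
    rw [mul_add, Finset.mul_sum]
    congr 1
    · rw [hT]; ring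
    · apply Finset.sum_congr rfl
      intro k _
      rw [hT]; ring
  rw [e2, e3] at hfin
  exact le_of_mul_le_mul_left hfin hD0

lemma core_false (hH : 1 ≤ H) {C α : ℝ} (hC : 0 ≤ C) (hα1 : 1 < α) (hα2 : α < 2)
    (hA : ∀ z ∈ range φ, ∀ R ρ : ℝ, 0 < ρ → ρ ≤ R → ∃ P : Finset (Set Y),
      (P.card : ℝ) ≤ C * (R / ρ) ^ α ∧ (∀ S ∈ P, ∀ x ∈ S, ∀ y ∈ S, dist x y ≤ ρ) ∧
        range φ ∩ Metric.closedBall z R ⊆ ⋃ S ∈ P, S)
    (hG : ∀ M : ℕ, 2 ≤ M → ∃ a : ℕ → ℕ → E, GridData φ H M a) : False := by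
  have hH0 : 0 < H := by linarith
  set b : ℝ := 2 ^ (α - 1) with hb
  have hb1 : 1 < b := Real.one_lt_rpow (by norm_num) (by linarith)
  have hb2 : b < 2 := by
    calc b < (2 : ℝ) ^ (1 : ℝ) := Real.rpow_lt_rpow_of_exponent_lt (by norm_num) (by linarith)
      _ = 2 := by norm_num
  set C' : ℝ := C * (2 * H) * H ^ α * (b / (b - 1)) with hC'
  have hb10 : 0 < b - 1 := by linarith
  have hC'0 : 0 ≤ C' := by positivity
  -- the term of the sum
  have hterm : ∀ k : ℕ, C * (H * 2 ^ (k + 1)) ^ α * (2 * H / 2 ^ (k + 1)) =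
      C * (2 * H) * H ^ α * b ^ (k + 1) := by
    intro k
    have h2 : ((2 : ℝ) ^ (k + 1)) ^ α = b ^ (k + 1) * 2 ^ (k + 1) := by
      have e1 : (2 : ℝ) ^ α = b * 2 := by
        rw [hb, ← Real.rpow_add_one (by norm_num)]; congr 1; ring
      rw [← Real.rpow_natCast 2 (k + 1), ← Real.rpow_mul (by norm_num), mul_comm ((k + 1 : ℕ) : ℝ) α,
        Real.rpow_mul (by norm_num), Real.rpow_natCast, Real.rpow_natCast, e1, mul_pow]
    rw [Real.mul_rpow hH0.le (by positivity), h2]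
    field_simp
  have hev : ∀ᶠ K : ℕ in atTop, (1 / (8 * H ^ 2) - (1 / 2) ^ K) / (4 * H) ≤ C' * (b / 2) ^ K := by
    have hlarge : Tendsto (fun K : ℕ => (2 : ℝ) ^ K / (8 * H ^ 2)) atTop atTop :=
      (tendsto_pow_atTop_atTop_of_one_lt (by norm_num)).atTop_div_const (by positivity)
    filter_upwards [hlarge.eventually_ge_atTop 2] with K hK
    set M : ℕ := ⌊(2 : ℝ) ^ K / (8 * H ^ 2)⌋₊ with hM
    have hM2 : 2 ≤ M := by
      rw [hM]; exact Nat.le_floor (by exact_mod_cast hK)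
    have hMle : (M : ℝ) ≤ 2 ^ K / (8 * H ^ 2) := Nat.floor_le (by positivity)
    have hMge : 2 ^ K / (8 * H ^ 2) < (M : ℝ) + 1 := Nat.lt_floor_add_one _
    obtain ⟨a, ha⟩ := hG M hM2
    have h1 := core_le hH hA hM2 ha K
    have h2 : (M : ℝ) ^ 2 * (2 * H / 2 ^ K) ≤ M / (4 * H) := by
      calc (M : ℝ) ^ 2 * (2 * H / 2 ^ K) = M * M * (2 * H / 2 ^ K) := by ring
        _ ≤ M * (2 ^ K / (8 * H ^ 2)) * (2 * H / 2 ^ K) := by gcongr
        _ = M / (4 * H) := by field_simp; norm_num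
    have h3 : ∑ k ∈ Finset.range K, C * (H * 2 ^ (k + 1)) ^ α * (2 * H / 2 ^ (k + 1)) ≤
        C' * b ^ K := by
      rw [Finset.sum_congr rfl fun k _ => hterm k, ← Finset.mul_sum]
      have h4 : ∑ k ∈ Finset.range K, b ^ (k + 1) ≤ b / (b - 1) * b ^ K := by
        have h5 : ∑ k ∈ Finset.range K, b ^ (k + 1) = b * ∑ k ∈ Finset.range K, b ^ k := by
          rw [Finset.mul_sum]
          exact Finset.sum_congr rfl fun k _ => by ring
        rw [h5, geom_sum_eq (by linarith)]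
        rw [div_mul_eq_mul_div, mul_div_assoc']
        apply div_le_div_of_nonneg_right _ hb10.le
        apply mul_le_mul_of_nonneg_left _ (by linarith)
        linarith
      calc C * (2 * H) * H ^ α * ∑ k ∈ Finset.range K, b ^ (k + 1)
          ≤ C * (2 * H) * H ^ α * (b / (b - 1) * b ^ K) := by gcongr
        _ = C' * b ^ K := by rw [hC']; ring
    have h4 : (M : ℝ) / (2 * H) = M / (4 * H) + M / (4 * H) := by field_simp; norm_num
    have h5 : (M : ℝ) / (4 * H) ≤ C' * b ^ K := by linarith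
    have h6 : (2 ^ K / (8 * H ^ 2) - 1) / (4 * H) ≤ C' * b ^ K := by
      refine le_trans ?_ h5
      apply div_le_div_of_nonneg_right _ (by positivity)
      linarith
    have h7 : (1 / (8 * H ^ 2) - (1 / 2) ^ K) / (4 * H) =
        (2 ^ K / (8 * H ^ 2) - 1) / (4 * H) / 2 ^ K := by
      rw [div_pow, one_pow]; field_simp
    have h8 : C' * (b / 2) ^ K = C' * b ^ K / 2 ^ K := by rw [div_pow, mul_div_assoc]
    rw [h7, h8]
    exact div_le_div_of_nonneg_right h6 (by positivity)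
  have hl1 : Tendsto (fun K : ℕ => (1 / (8 * H ^ 2) - (1 / 2 : ℝ) ^ K) / (4 * H)) atTop
      (𝓝 ((1 / (8 * H ^ 2) - 0) / (4 * H))) :=
    (tendsto_const_nhds.sub (tendsto_pow_atTop_nhds_zero_of_lt_one (by norm_num)
      (by norm_num))).div_const _
  have hl2 : Tendsto (fun K : ℕ => C' * (b / 2) ^ K) atTop (𝓝 (C' * 0)) :=
    (tendsto_pow_atTop_nhds_zero_of_lt_one (by positivity) (by linarith)).const_mul _
  have := le_of_tendsto_of_tendsto hl1 hl2 hev
  rw [mul_zero, sub_zero] at this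
  exact absurd this (not_le.2 (by positivity))

end Core

/-- **The lower bound.** Every quasisymmetric image of a set which is dense in discs has Assouad
dimension at least `2`. -/
theorem two_le_assouadDim {E : Set ℂ} (hE : ∀ ε : ℝ, 0 < ε → DenseInDisc E ε) {Y : Type}
    [MetricSpace Y] (φ : E → Y) (hφ : QuasiSymmetric φ) : 2 ≤ assouadDim (range φ) := by
  obtain ⟨hφi, η, hη⟩ := hφ
  refine le_iInf₂ fun α hα => ?_
  by_contra hlt
  push Not at hlt
  have hα2 : (α : ℝ) < 2 := by exact_mod_cast hlt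
  obtain ⟨C, hA⟩ := hα
  obtain ⟨z, r, hr0, -, hd⟩ := hE 1 one_pos
  obtain ⟨e, he, -⟩ := hd z (Metric.mem_closedBall_self hr0.le)
  have hC : 0 ≤ C := by
    obtain ⟨P, hP, -⟩ := hA (φ ⟨e, he⟩) (mem_range_self _) 1 1 one_pos le_rfl
    rw [div_one, Real.one_rpow, mul_one] at hP
    exact (Nat.cast_nonneg _).trans hP
  have hη4 : ∀ x a b : E, dist x a ≤ 4 * dist x b →
      dist (φ x) (φ a) ≤ max ((η 4 : ℝ≥0) : ℝ) 1 * dist (φ x) (φ b) := by
    intro x a b hx
    refine (hη 4 x a b (by exact_mod_cast hx)).trans ?_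
    gcongr
    exact le_max_left _ _
  refine core_false (φ := φ) (H := max ((η 4 : ℝ≥0) : ℝ) 1) (C := C) (α := max (α : ℝ) (3 / 2))
    (le_max_right _ _) hC ?_ ?_ ?_ fun M hM => gridData hφi hη4 hE M hM
  · exact lt_of_lt_of_le (by norm_num) (le_max_right _ _)
  · exact max_lt hα2 (by norm_num)
  · intro z hz R ρ hρ hR
    obtain ⟨P, hP1, hP2⟩ := hA z hz R ρ hρ hR
    refine ⟨P, hP1.trans ?_, hP2⟩
    apply mul_le_mul_of_nonneg_left _ hC
    exact Real.rpow_le_rpow_of_exponent_le ((one_le_div hρ).2 hR) (le_max_left _ _)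

lemma assouadBound_two (E : Set ℂ) : AssouadBound (range (id : E → E)) 2 := by
  classical
  refine ⟨25, fun z _ R ρ hρ hR => ?_⟩
  have hR0 : 0 < R := by linarith
  set l : ℝ := ρ / 2 with hl
  have hl0 : 0 < l := by positivity
  set M : ℕ := ⌊2 * R / l⌋₊ + 1 with hM
  have hMl : 2 * R < M * l := by
    rw [← div_lt_iff₀ hl0, hM]
    push_cast
    exact Nat.lt_floor_add_one _
  have hMle : (M : ℝ) ≤ 5 * (R / ρ) := by
    have h1 : (⌊2 * R / l⌋₊ : ℝ) ≤ 2 * R / l := Nat.floor_le (by positivity)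
    have h2 : 2 * R / l = 4 * (R / ρ) := by rw [hl]; field_simp; norm_num
    have h3 : 1 ≤ R / ρ := (one_le_div hρ).2 hR
    rw [hM]; push_cast
    linarith
  set x : ℂ := ⟨(z : ℂ).re - R, (z : ℂ).im - R⟩ with hx
  refine ⟨(Finset.range M ×ˢ Finset.range M).image
    (fun p => ((↑) : E → ℂ) ⁻¹' sq (cor x l p.1 p.2) l), ?_, ?_, ?_⟩
  · have h1 : ((((Finset.range M ×ˢ Finset.range M).image
        (fun p => ((↑) : E → ℂ) ⁻¹' sq (cor x l p.1 p.2) l)).card : ℕ) : ℝ) ≤ (M : ℝ) * M := by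
      have := Finset.card_image_le (s := Finset.range M ×ˢ Finset.range M)
        (f := fun p => ((↑) : E → ℂ) ⁻¹' sq (cor x l p.1 p.2) l)
      rw [Finset.card_product, Finset.card_range] at this
      exact_mod_cast this
    refine h1.trans ?_
    rw [Real.rpow_ofNat]
    calc (M : ℝ) * M ≤ (5 * (R / ρ)) * (5 * (R / ρ)) := by gcongr
      _ = 25 * (R / ρ) ^ 2 := by ring
  · intro S hS u hu v hv
    rw [Finset.mem_image] at hS
    obtain ⟨p, -, rfl⟩ := hS
    have := dist_sq hu hv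
    rw [Subtype.dist_eq]
    linarith
  · rintro w ⟨-, hw⟩
    have hwsq : (w : ℂ) ∈ sq x (M * l) := by
      rw [Metric.mem_closedBall, Subtype.dist_eq, Complex.dist_eq] at hw
      have a := (Complex.abs_re_le_norm _).trans hw
      have b := (Complex.abs_im_le_norm _).trans hw
      rw [Complex.sub_re, abs_le] at a
      rw [Complex.sub_im, abs_le] at b
      refine ⟨⟨?_, ?_⟩, ?_, ?_⟩ <;> simp only [hx] <;> linarith [a.1, a.2, b.1, b.2]
    obtain ⟨i, hi, j, hj, hij⟩ := sq_sub x l hl0 M _ hwsq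
    simp only [mem_iUnion, exists_prop, Finset.mem_image]
    exact ⟨_, ⟨(i, j), by simp [hi, hj], rfl⟩, hij⟩

/-- The conformal Assouad dimension of a plane set which is dense in discs is `2`. -/
theorem conformalAssouadDim_eq {E : Set ℂ} (hE : ∀ ε : ℝ, 0 < ε → DenseInDisc E ε) :
    conformalAssouadDim E = 2 := by
  apply le_antisymm
  · have hid : QuasiSymmetric (id : E → E) :=
      ⟨Function.injective_id, Homeomorph.refl _, fun t x a b h => by simpa using h⟩
    have h1 : conformalAssouadDim E ≤ assouadDim (range (id : E → E)) := by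
      unfold conformalAssouadDim
      refine (iInf_le _ (↥E)).trans ?_
      refine (iInf_le _ (inferInstance : MetricSpace E)).trans ?_
      refine (iInf_le _ (id : E → E)).trans ?_
      exact iInf_le _ hid
    refine h1.trans ?_
    refine (iInf₂_le (2 : ℝ≥0) ?_).trans (by norm_num)
    exact_mod_cast assouadBound_two E
  · refine le_iInf fun Y => le_iInf fun _ => le_iInf fun φ => le_iInf fun hφ => ?_
    exact two_le_assouadDim hE φ hφ

end Pool.Agent.K9h27.PF
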