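import Mathlib

/-!
Squares in the plane: a set of large area which is the neighbourhood of `E` comes close to every
point of some smaller square.
-/

set_option autoImplicit false

namespace Pool.Agent.K9h27.PF

open MeasureTheory Set

/-- the half-open square with lower left corner `x` and side `l` -/
def sq (x : ℂ) (l : ℝ) : Set ℂ :=
  {w | (x.re ≤ w.re ∧ w.re < x.re + l) ∧ x.im ≤ w.im ∧ w.im < x.im + l}

lemma sq_eq (x : ℂ) (l : ℝ) :
    sq x l = Complex.measurableEquivRealProd ⁻¹' (Ico x.re (x.re + l) ×ˢ Ico x.im (x.im + l)) := by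
  ext w
  simp [sq, Complex.measurableEquivRealProd_apply]

lemma measurableSet_sq (x : ℂ) (l : ℝ) : MeasurableSet (sq x l) := by
  rw [sq_eq]
  exact Complex.measurableEquivRealProd.measurable (measurableSet_Ico.prod measurableSet_Ico)

lemma volume_sq (x : ℂ) (l : ℝ) : volume (sq x l) = ENNReal.ofReal l * ENNReal.ofReal l := by
  rw [sq_eq, Complex.volume_preserving_equiv_real_prod.measure_preimage
    (measurableSet_Ico.prod measurableSet_Ico).nullMeasurableSet]
  rw [Measure.volume_eq_prod, Measure.prod_prod, Real.volume_Ico, Real.volume_Ico]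
  congr 1 <;> congr 1 <;> ring

/-- the corner of the subsquare number `(i, j)` -/
noncomputable def cor (x : ℂ) (l : ℝ) (i j : ℕ) : ℂ := ⟨x.re + i * l, x.im + j * l⟩

lemma sq_sub (x : ℂ) (l : ℝ) (hl : 0 < l) (M : ℕ) (w : ℂ) (hw : w ∈ sq x (M * l)) :
    ∃ i < M, ∃ j < M, w ∈ sq (cor x l i j) l := by
  obtain ⟨⟨h1, h2⟩, h3, h4⟩ := hw
  refine ⟨⌊(w.re - x.re) / l⌋₊, ?_, ⌊(w.im - x.im) / l⌋₊, ?_, ?_⟩
  · rw [Nat.floor_lt (by apply div_nonneg <;> linarith), div_lt_iff₀ hl]
    linarith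
  · rw [Nat.floor_lt (by apply div_nonneg <;> linarith), div_lt_iff₀ hl]
    linarith
  · have a1 := Nat.floor_le (show 0 ≤ (w.re - x.re) / l by apply div_nonneg <;> linarith)
    have a2 := Nat.lt_floor_add_one ((w.re - x.re) / l)
    have b1 := Nat.floor_le (show 0 ≤ (w.im - x.im) / l by apply div_nonneg <;> linarith)
    have b2 := Nat.lt_floor_add_one ((w.im - x.im) / l)
    rw [le_div_iff₀ hl] at a1 b1
    rw [div_lt_iff₀ hl] at a2 b2
    refine ⟨⟨?_, ?_⟩, ?_, ?_⟩ <;> simp only [cor] <;> nlinarith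

/-- If in every square of side `M ^ (k+1) l`, `k < n`, one of the subsquares does not meet `A`, then
the area of `A` in the squares of side `M ^ n l` is small. -/
lemma area_le (A : Set ℂ) (M : ℕ) (l : ℝ) (hl : 0 < l) (hM : 1 ≤ M) : ∀ n : ℕ,
    (∀ k < n, ∀ y : ℂ, ∃ i < M, ∃ j < M, sq (cor y ((M : ℝ) ^ k * l) i j) ((M : ℝ) ^ k * l) ∩ A = ∅) →
    ∀ x : ℂ, volume (sq x ((M : ℝ) ^ n * l) ∩ A) ≤
      (((M ^ 2 - 1) ^ n : ℕ) : ENNReal) * (ENNReal.ofReal l * ENNReal.ofReal l) := by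
  intro n
  induction n with
  | zero =>
    intro _ x
    simp only [pow_zero, one_mul, Nat.cast_one]
    exact (measure_mono inter_subset_left).trans (volume_sq x l).le
  | succ n ih =>
    intro h x
    have ih' := ih (fun k hk => h k (by omega))
    obtain ⟨i0, hi0, j0, hj0, h0⟩ := h n (by omega) x
    have hMn : (0 : ℝ) < (M : ℝ) ^ n * l := by
      have : (0 : ℝ) < M := by exact_mod_cast hM
      positivity
    set L : ℝ := (M : ℝ) ^ n * l with hL
    have e1 : (M : ℝ) ^ (n + 1) * l = M * L := by rw [hL]; ring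
    rw [e1]
    have hsub : sq x (M * L) ∩ A ⊆
        ⋃ q ∈ (Finset.range M ×ˢ Finset.range M).erase (i0, j0), (sq (cor x L q.1 q.2) L ∩ A) := by
      rintro w ⟨hw, hwA⟩
      obtain ⟨i, hi, j, hj, hq⟩ := sq_sub x L hMn M w hw
      simp only [mem_iUnion, exists_prop]
      refine ⟨(i, j), ?_, hq, hwA⟩
      rw [Finset.mem_erase]
      refine ⟨?_, by simp [hi, hj]⟩
      intro he
      have hi' : i = i0 := congrArg Prod.fst he
      have hj' : j = j0 := congrArg Prod.snd he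
      subst hi'; subst hj'
      have : w ∈ sq (cor x L i j) L ∩ A := ⟨hq, hwA⟩
      rw [h0] at this
      exact this
    refine (measure_mono hsub).trans ((measure_biUnion_finset_le _ _).trans ?_)
    refine (Finset.sum_le_sum fun q _ => ih' (cor x L q.1 q.2)).trans ?_
    rw [Finset.sum_const, Finset.card_erase_of_mem (by simp [hi0, hj0]), Finset.card_product,
      Finset.card_range, nsmul_eq_mul]
    rw [pow_succ ((M ^ 2 - 1) : ℕ), Nat.cast_mul, ← pow_two M]
    apply le_of_eq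
    ring

/-- **Density lemma.** -/
lemma exists_dense {A : Set ℂ} {M n : ℕ} {l : ℝ} (hl : 0 < l) (hM : 1 ≤ M) (x : ℂ)
    (h : (((M ^ 2 - 1) ^ n : ℕ) : ℝ) * l ^ 2 < (volume (sq x ((M : ℝ) ^ n * l) ∩ A)).toReal) :
    ∃ k < n, ∃ y : ℂ, ∀ i < M, ∀ j < M,
      (sq (cor y ((M : ℝ) ^ k * l) i j) ((M : ℝ) ^ k * l) ∩ A).Nonempty := by
  by_contra hcon
  push Not at hcon
  have h1 := area_le A M l hl hM n (fun k hk y => by
    obtain ⟨i, hi, j, hj, hij⟩ := hcon k hk y
    exact ⟨i, hi, j, hj, hij⟩) x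
  have h2 : (volume (sq x ((M : ℝ) ^ n * l) ∩ A)).toReal ≤
      ((((M ^ 2 - 1) ^ n : ℕ) : ENNReal) * (ENNReal.ofReal l * ENNReal.ofReal l)).toReal := by
    apply ENNReal.toReal_mono _ h1
    exact ENNReal.mul_ne_top (ENNReal.natCast_ne_top _)
      (ENNReal.mul_ne_top ENNReal.ofReal_ne_top ENNReal.ofReal_ne_top)
  rw [ENNReal.toReal_mul, ENNReal.toReal_mul, ENNReal.toReal_ofReal hl.le,
    ENNReal.toReal_natCast, ← pow_two] at h2
  linarith

lemma dist_sq {x w w' : ℂ} {l : ℝ} (hw : w ∈ sq x l) (hw' : w' ∈ sq x l) : dist w w' ≤ 2 * l := by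
  obtain ⟨⟨h1, h2⟩, h3, h4⟩ := hw
  obtain ⟨⟨h1', h2'⟩, h3', h4'⟩ := hw'
  rw [Complex.dist_eq]
  have h := Complex.norm_le_abs_re_add_abs_im (w - w')
  have a : |(w - w').re| ≤ l := by
    rw [Complex.sub_re, abs_le]; constructor <;> linarith
  have b : |(w - w').im| ≤ l := by
    rw [Complex.sub_im, abs_le]; constructor <;> linarith
  linarith

/-- `E` is `ε r`-dense in some disc of radius `r < ε` -/
def DenseInDisc (E : Set ℂ) (ε : ℝ) : Prop :=
  ∃ (z : ℂ) (r : ℝ), 0 < r ∧ r < ε ∧ ∀ w ∈ Metric.closedBall z r, ∃ a ∈ E, dist w a ≤ ε * r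

/-- From a positive proportion of the area of discs to dense discs. -/
theorem dense_scale {c : ℝ} (hc : 0 < c) (ε : ℝ) (hε : 0 < ε) : ∃ K : ℝ, 1 ≤ K ∧
    ∀ (E : Set ℂ) (z : ℂ) (r σ : ℝ), 0 < r → 0 < σ → σ ≤ r / K →
      c * r ^ 2 ≤ (volume (Metric.thickening σ E ∩ Metric.closedBall z r)).toReal →
      ∃ (y : ℂ) (r' : ℝ), r / K ≤ r' ∧ r' ≤ r ∧
        ∀ w ∈ Metric.closedBall y r', ∃ a ∈ E, dist w a ≤ ε * r' := by
  -- the number of subdivisions
  obtain ⟨M, hM⟩ := exists_nat_gt (max 2 (9 / ε))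
  have hM2 : (2 : ℝ) < M := lt_of_le_of_lt (le_max_left _ _) hM
  have hM9 : 9 / ε < M := lt_of_le_of_lt (le_max_right _ _) hM
  have hM1 : 1 ≤ M := by
    have : (1 : ℝ) ≤ M := by linarith
    exact_mod_cast this
  have hM0 : (0 : ℝ) < M := by linarith
  set q : ℝ := (((M ^ 2 - 1 : ℕ) : ℝ)) / (M : ℝ) ^ 2 with hq
  have hq0 : 0 ≤ q := by positivity
  have hcast : ((M ^ 2 - 1 : ℕ) : ℝ) = (M : ℝ) ^ 2 - 1 := by
    have h1 : 1 ≤ M ^ 2 := Nat.one_le_pow _ _ (by omega)
    push_cast [Nat.cast_sub h1]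
    ring
  have hq1 : q < 1 := by
    rw [hq, hcast, div_lt_one (by positivity)]
    linarith
  obtain ⟨n, hn⟩ := exists_pow_lt_of_lt_one (show 0 < c / 9 by positivity) hq1
  refine ⟨(M : ℝ) ^ n, one_le_pow₀ (by linarith), ?_⟩
  intro E z r σ hr0 hσ0 hσ hvol
  set l : ℝ := 3 * r / (M : ℝ) ^ n with hl
  have hl0 : 0 < l := by positivity
  have hMl : (M : ℝ) ^ n * l = 3 * r := by rw [hl]; field_simp
  have hσl : σ ≤ l := by
    refine hσ.trans ?_
    rw [hl]
    apply div_le_div_of_nonneg_right _ (by positivity)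
    linarith
  set x : ℂ := ⟨z.re - 3 / 2 * r, z.im - 3 / 2 * r⟩ with hx
  have hball : Metric.closedBall z r ⊆ sq x (3 * r) := by
    intro w hw
    rw [Metric.mem_closedBall, Complex.dist_eq] at hw
    have a := (Complex.abs_re_le_norm (w - z)).trans hw
    have b := (Complex.abs_im_le_norm (w - z)).trans hw
    rw [Complex.sub_re, abs_le] at a
    rw [Complex.sub_im, abs_le] at b
    refine ⟨⟨?_, ?_⟩, ?_, ?_⟩ <;> simp only [hx] <;> linarith [a.1, a.2, b.1, b.2]
  have hlarge : (((M ^ 2 - 1) ^ n : ℕ) : ℝ) * l ^ 2 <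
      (volume (sq x ((M : ℝ) ^ n * l) ∩ Metric.thickening σ E)).toReal := by
    have h1 : (((M ^ 2 - 1) ^ n : ℕ) : ℝ) * l ^ 2 = q ^ n * (3 * r) ^ 2 := by
      rw [hq, hl]
      push_cast
      rw [div_pow, div_pow]
      field_simp
      rw [← pow_mul, ← pow_mul, mul_comm 2 n]
    rw [h1, hMl]
    calc q ^ n * (3 * r) ^ 2 < c / 9 * (3 * r) ^ 2 := by gcongr
      _ = c * r ^ 2 := by ring
      _ ≤ _ := hvol
      _ ≤ _ := by
        apply ENNReal.toReal_mono
        · have h2 : volume (sq x (3 * r)) ≠ ⊤ := by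
            rw [volume_sq]
            exact ENNReal.mul_ne_top ENNReal.ofReal_ne_top ENNReal.ofReal_ne_top
          exact ne_top_of_le_ne_top h2 (measure_mono inter_subset_left)
        · apply measure_mono
          rintro w ⟨h1, h2⟩
          exact ⟨hball h2, h1⟩
  obtain ⟨k, hk, y, hy⟩ := exists_dense hl0 hM1 x hlarge
  set m : ℝ := (M : ℝ) ^ k * l with hm
  have hm0 : 0 < m := by positivity
  have hlm : l ≤ m := by
    rw [hm]
    have : (1 : ℝ) ≤ (M : ℝ) ^ k := one_le_pow₀ (by linarith)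
    nlinarith
  have hmr : M * m ≤ 3 * r := by
    rw [← hMl, hm, ← mul_assoc, ← pow_succ']
    apply mul_le_mul_of_nonneg_right _ hl0.le
    exact pow_le_pow_right₀ (by linarith) hk
  -- the new disc
  refine ⟨⟨y.re + M * m / 2, y.im + M * m / 2⟩, M * m / 3, ?_, by linarith, ?_⟩
  · have h1 : r / (M : ℝ) ^ n = l / 3 := by rw [hl]; ring
    rw [h1]
    nlinarith
  · intro w hw
    have hwsq : w ∈ sq y (M * m) := by
      rw [Metric.mem_closedBall, Complex.dist_eq] at hw
      have a := (Complex.abs_re_le_norm _).trans hw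
      have b := (Complex.abs_im_le_norm _).trans hw
      rw [Complex.sub_re, abs_le] at a
      rw [Complex.sub_im, abs_le] at b
      simp only at a b
      have : 0 < M * m := by positivity
      refine ⟨⟨?_, ?_⟩, ?_, ?_⟩ <;> linarith [a.1, a.2, b.1, b.2]
    obtain ⟨i, hi, j, hj, hij⟩ := sq_sub y m hm0 M w hwsq
    obtain ⟨a', ha', haE⟩ := hy i hi j hj
    rw [Metric.mem_thickening_iff] at haE
    obtain ⟨e, he, hde⟩ := haE
    refine ⟨e, he, ?_⟩
    have h1 := dist_sq hij ha'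
    have h2 := dist_triangle w a' e
    have h3 : 3 * m ≤ ε * (M * m / 3) := by
      have : 9 < M * ε := by
        rw [div_lt_iff₀ hε] at hM9
        exact hM9
      nlinarith
    linarith

end Pool.Agent.K9h27.PF
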