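import Pool.Agent.Results.MP_216314_pr.SlowestPieces
import Pool.Agent.Results.MP_fe58d8_pr.ArcContent
import Pool.Agent.Results.MP_fe58d8_pr.ExactModulus
import Pool.Agent.Results.MP_fe58d8_pr.ExactOccupation
import Pool.Agent.K9h27.PF.Lim
import Pool.Agent.K9h27.PF.QS

/-!
All the statements about the limits of the critical interface in one theorem.
-/

set_option autoImplicit false

namespace Pool.Agent.K9h27.PF

open H984N MeasureTheory Filter Topology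

theorem all_parts (R : Rect) :
    (∀ δ : ℕ → ℝ, (∀ i, 0 < δ i) → Tendsto δ atTop (𝓝 0) →
      ∃ φ : ℕ → ℕ, StrictMono φ ∧ ∃ μ : ProbabilityMeasure X,
        Tendsto (fun i => R.law (δ (φ i))) atTop (𝓝 μ)) ∧
    ∃ (c C : ℝ) (K : ℝ → ℝ), 0 < c ∧ 0 < C ∧ (∀ ε : ℝ, 0 < ε → 1 ≤ K ε) ∧
    ∀ δ : ℕ → ℝ, (∀ i, 0 < δ i) → Tendsto δ atTop (𝓝 0) → ∀ μ : ProbabilityMeasure X,
      Tendsto (fun i => R.law (δ i)) atTop (𝓝 μ) →
      ∀ᵐ p ∂(μ : Measure X), 0 < p.2 ∧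
        (∀ s t : unitInterval, s < t → ∀ᶠ r : ℝ in 𝓝[>] 0, ∃ z ∈ p.1 '' Set.Icc s t,
          ∀ σ : ℝ, 0 < σ → σ ≤ r / Real.sqrt (Real.log (1 / r)) →
            c * σ ^ (1/4 : ℝ) * (r ^ (7/4 : ℝ) * Real.log (1 / r) ^ (1/8 : ℝ)) ≤
              (volume (Metric.thickening σ (p.1 '' Set.Icc s t) ∩
                Metric.closedBall z r)).toReal) ∧
        (∀ᶠ r : ℝ in 𝓝[>] 0, ∀ σ : ℝ, 0 < σ → σ ≤ c * r / Real.log (1 / r) → ∀ z : ℂ,
          (volume (Metric.thickening σ (Set.range p.1) ∩ Metric.closedBall z r)).toReal ≤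
            C * σ ^ (1/4 : ℝ) * (r ^ (7/4 : ℝ) * Real.log (1 / r) ^ (1/8 : ℝ))) ∧
        ∀ s t : unitInterval, s < t →
          (∀ ε : ℝ, 0 < ε → ∀ᶠ r : ℝ in 𝓝[>] 0, ∃ (y : ℂ) (r' : ℝ), r / K ε ≤ r' ∧ r' ≤ r ∧
            ∀ w ∈ Metric.closedBall y r', ∃ u ∈ Set.Icc s t, dist w (p.1 u) ≤ ε * r') ∧
          conformalAssouadDim (p.1 '' Set.Icc s t) = 2 := by
  obtain ⟨hsub, c1, C1, -, hC1, hslow⟩ := Pool.Agent.Results.MP_216314_pr.SlowestPieces.result R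
  obtain ⟨c2, C2, hc2, hC2, hcont⟩ := Pool.Agent.Results.MP_fe58d8_pr.ArcContent.result
  obtain ⟨-, c3, C3, -, hC3, hmod⟩ := Pool.Agent.Results.MP_fe58d8_pr.ExactModulus.result R
  obtain ⟨-, c4, C4, -, hC4, hocc⟩ := Pool.Agent.Results.MP_fe58d8_pr.ExactOccupation.result R
  obtain ⟨a, ha, hlow⟩ := area_low hC1 hc2 hC2
  obtain ⟨b, C, hb, hC, hup⟩ := area_up (c2 := c2) hC2 hC3 hC4
  choose K hK1 hK using fun (ε : ℝ) (hε : 0 < ε) => dense_scale ha ε hε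
  refine ⟨hsub, min a b, C, fun ε => if h : 0 < ε then K ε h else 1, lt_min ha hb, hC,
    fun ε hε => ?_, ?_⟩
  · simp only [dif_pos hε]
    exact hK1 ε hε
  intro δ hδ hlim μ hμ
  filter_upwards [hslow δ hδ hlim μ hμ, (hcont R).2 δ hδ hlim μ hμ, hmod δ hδ hlim μ hμ,
    hocc δ hδ hlim μ hμ] with p h1 h2 h3 h4
  have hS : SlowP p.1 p.2 C1 := h1.2.2
  have hA : ContP p.1 p.2 c2 C2 := h2.2.1
  have hM : ModP p.1 p.2 C3 := by
    obtain ⟨h0, hh0, h5⟩ := h3.2 0 1 (by exact zero_lt_one)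
    exact ⟨h0, hh0, fun h hh hlt => (h5 h hh hlt).2⟩
  have hO : OccP p.1 p.2 C4 := by
    obtain ⟨r0, hr0, h5⟩ := h4.2 0 1 (by exact zero_lt_one)
    exact ⟨r0, hr0, fun r hr hlt => (h5 r hr hlt).2⟩
  have hlow' := hlow p.1 p.2 hS hA
  have hdense : ∀ s t : unitInterval, s < t → ∀ (ε : ℝ) (hε : 0 < ε), ∀ᶠ r : ℝ in 𝓝[>] 0,
      ∃ (y : ℂ) (r' : ℝ), r / K ε hε ≤ r' ∧ r' ≤ r ∧
        ∀ w ∈ Metric.closedBall y r', ∃ u ∈ Set.Icc s t, dist w (p.1 u) ≤ ε * r' := by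
    intro s t hst ε hε
    filter_upwards [hlow' s t hst, ev_small (max 1 (K ε hε ^ 2)) 1 one_pos] with r hr ⟨hr0, _, hL⟩
    obtain ⟨z, -, hz⟩ := hr
    have hL1 : 1 ≤ Real.log (1 / r) := (le_max_left _ _).trans hL
    have hL0 : 0 < Real.log (1 / r) := by linarith
    have hLK : K ε hε ^ 2 ≤ Real.log (1 / r) := (le_max_right _ _).trans hL
    have hK0 : 0 < K ε hε := lt_of_lt_of_le one_pos (hK1 ε hε)
    have hs : K ε hε ≤ Real.sqrt (Real.log (1 / r)) := Real.le_sqrt_of_sq_le hLK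
    have hs0 : 0 < Real.sqrt (Real.log (1 / r)) := Real.sqrt_pos.2 hL0
    have h6 := hz (r / Real.sqrt (Real.log (1 / r))) (by positivity) le_rfl
    have e1 : a * (r / Real.sqrt (Real.log (1 / r))) ^ (1/4 : ℝ) *
        (r ^ (7/4 : ℝ) * Real.log (1 / r) ^ (1/8 : ℝ)) = a * r ^ 2 := by
      rw [Real.div_rpow hr0.le hs0.le, Real.sqrt_eq_rpow, ← Real.rpow_mul hL0.le]
      have e2 : r ^ (1/4 : ℝ) * r ^ (7/4 : ℝ) = r ^ 2 := by
        rw [← Real.rpow_add hr0]; norm_num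
      have e3 : (1 / 2 * (1 / 4) : ℝ) = 1 / 8 := by norm_num
      have h7 : 0 < Real.log (1 / r) ^ (1/8 : ℝ) := by positivity
      rw [e3, ← e2]
      field_simp
    rw [e1] at h6
    obtain ⟨y, r', hy1, hy2, hy3⟩ := hK ε hε (p.1 '' Set.Icc s t) z r _ hr0
      (by positivity) (by gcongr) h6
    refine ⟨y, r', hy1, hy2, fun w hw => ?_⟩
    obtain ⟨_, ⟨u, hu, rfl⟩, hd⟩ := hy3 w hw
    exact ⟨u, hu, hd⟩
  refine ⟨h1.1, fun s t hst => ?_, ?_, fun s t hst => ⟨fun ε hε => ?_, ?_⟩⟩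
  · filter_upwards [hlow' s t hst, ev_small 1 1 one_pos] with r ⟨z, hz, hr⟩ ⟨hr0, _, hL⟩
    refine ⟨z, hz, fun σ hσ0 hσ => le_trans ?_ (hr σ hσ0 hσ)⟩
    have hL0 : 0 < Real.log (1 / r) := by linarith
    gcongr
    exact min_le_left _ _
  · filter_upwards [hup p.1 p.2 h1.1 hA hM hO, ev_small 1 1 one_pos] with r hr ⟨hr0, _, hL⟩
    intro σ hσ0 hσ z
    have hL0 : 0 < Real.log (1 / r) := by linarith
    refine hr σ hσ0 (hσ.trans ?_) z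
    gcongr
    exact min_le_right _ _
  · simp only [dif_pos hε]
    exact hdense s t hst ε hε
  · apply conformalAssouadDim_eq
    intro ε hε
    obtain ⟨r, ⟨y, r', h5, h6, h7⟩, hr0, hrε, -⟩ :=
      ((hdense s t hst ε hε).and (ev_small 1 ε hε)).exists
    have hK0 : 0 < K ε hε := lt_of_lt_of_le one_pos (hK1 ε hε)
    refine ⟨y, r', lt_of_lt_of_le (by positivity) h5, by linarith, fun w hw => ?_⟩
    obtain ⟨u, hu, hd⟩ := h7 w hw
    exact ⟨p.1 u, ⟨u, hu, rfl⟩, hd⟩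

end Pool.Agent.K9h27.PF
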